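import Pool.Agent.Helper28.KZ.NoStuck

/-!
Support file for MP_0aa406_nt (helper77): the swap identity and nested stuck sets.
-/

set_option autoImplicit false

namespace Pool.Agent.Helper77.KZ

open Finset
open scoped Pointwise

variable {n : ℕ}

theorem conv_swap77 [NeZero n] (φ ψ : ZMod n → ℤ) (A D : Finset (ZMod n)) :
    ∑ s, (∑ a ∈ A, φ (s - a)) * (∑ d ∈ D, ψ (s - d))
      = ∑ z, (∑ a ∈ A, ψ (a - z)) * (∑ d ∈ D, φ (d - z)) := by
  have h1 : ∀ a d : ZMod n, ∑ s, φ (s - a) * ψ (s - d) = ∑ z, ψ (a - z) * φ (d - z) := by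
    intro a d
    refine (Equiv.sum_comp (Equiv.subLeft (a + d)) (fun s => φ (s - a) * ψ (s - d))).symm.trans ?_
    refine sum_congr rfl (fun z _ => ?_)
    simp only [Equiv.subLeft_apply]
    have e1 : a + d - z - a = d - z := by ring
    have e2 : a + d - z - d = a - z := by ring
    rw [e1, e2, mul_comm]
  have h2 : ∀ f k : ZMod n → ZMod n → ℤ, ∑ s, (∑ a ∈ A, f s a) * (∑ d ∈ D, k s d)
      = ∑ a ∈ A, ∑ d ∈ D, ∑ s, f s a * k s d := by
    intro f k
    simp only [sum_mul_sum]
    rw [sum_comm]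
    exact sum_congr rfl (fun a _ => sum_comm)
  rw [h2 (fun s a => φ (s - a)) (fun s d => ψ (s - d)),
    h2 (fun z a => ψ (a - z)) (fun z d => φ (d - z))]
  exact sum_congr rfl (fun a _ => sum_congr rfl (fun d _ => h1 a d))

theorem EE_zero77 {g : ZMod n → ℤ} {A : Finset (ZMod n)} {s : ZMod n} (hs : ¬ Meets g A s) :
    EE g A s = 0 := by
  refine sum_eq_zero (fun l hl => ?_)
  by_contra hc
  exact hs ⟨l, hl, hc⟩

theorem stuck_card [NeZero n] {g : ZMod n → ℤ} {U : Finset (ZMod n)} (h : Stuck g U) :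
    (((U + TT g).card : ℕ) : ℤ) = U.card * ∑ i, g i := by
  classical
  have hmem : ∀ s, s ∈ U + TT g ↔ Meets g U s := by
    intro s
    rw [Finset.mem_add]
    constructor
    · rintro ⟨u, hu, t, ht, rfl⟩
      refine ⟨u, hu, ?_⟩
      rw [add_sub_cancel_left]
      simpa [TT] using ht
    · rintro ⟨l, hl, hg⟩
      exact ⟨l, hl, s - l, by simpa [TT] using hg, by ring⟩
  have h1 : ∑ s, EE g U s = (((U + TT g).card : ℕ) : ℤ) := by
    rw [Finset.card_eq_sum_ones]
    push_cast
    rw [← Finset.sum_subset (Finset.subset_univ (U + TT g))]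
    · exact sum_congr rfl (fun s hs => h s ((hmem s).mp hs))
    · intro s _ hs
      exact EE_zero77 (fun h' => hs ((hmem s).mpr h'))
  rw [← h1]
  unfold EE
  rw [sum_comm]
  have : ∀ a ∈ U, ∑ s, g (s - a) = ∑ i, g i := fun a _ =>
    Equiv.sum_comp (Equiv.subRight a) g
  rw [sum_congr rfl this, sum_const, nsmul_eq_mul]

theorem nested [NeZero n] {g : ZMod n → ℤ} {A U : Finset (ZMod n)} (hAU : A ⊆ U) (hA : Stuck g A)
    (hU : Stuck g U) :
    (∀ y, ∀ a ∈ A, ∀ d ∈ U \ A, g (a - y) ≠ 0 → g (d - y) ≠ 0 → False) ∧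
    (∀ s, ∀ a ∈ A, ∀ d ∈ U \ A, g (s - a) ≠ 0 → g (s - d) ≠ 0 → False) ∧
    Stuck g (U \ A) := by
  classical
  set χ : ZMod n → ℤ := fun i => if g i ≠ 0 then 1 else 0 with hχ
  have hχ0 : ∀ i, 0 ≤ χ i := by intro i; simp only [hχ]; split_ifs <;> norm_num
  have hχpos : ∀ i, g i ≠ 0 → 0 < χ i := by
    intro i hi
    simp only [hχ]
    rw [if_pos hi]; norm_num
  have hsplit : ∀ s, EE g U s = EE g A s + EE g (U \ A) s := by
    intro s
    unfold EE
    rw [add_comm]
    exact (Finset.sum_sdiff hAU).symm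
  have hmeetU : ∀ s, Meets g A s → Meets g U s := fun s ⟨l, hl, hg⟩ => ⟨l, hAU hl, hg⟩
  have hD0 : ∀ s, Meets g A s → EE g (U \ A) s = 0 := by
    intro s hs
    have h1 := hsplit s
    rw [hU s (hmeetU s hs), hA s hs] at h1
    linarith
  have first : ∀ y, ∀ a ∈ A, ∀ d ∈ U \ A, g (a - y) ≠ 0 → g (d - y) ≠ 0 → False := by
    have h1 := conv_swap77 χ g A (U \ A)
    have h2 : ∑ s, (∑ a ∈ A, χ (s - a)) * (∑ d ∈ U \ A, g (s - d)) = 0 := by
      apply sum_eq_zero
      intro s _
      by_cases hs : Meets g A s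
      · have := hD0 s hs
        unfold EE at this
        rw [this, mul_zero]
      · have : ∑ a ∈ A, χ (s - a) = 0 := sum_eq_zero (fun a ha => by
          simp only [hχ]
          rw [if_neg]
          intro hg
          exact hs ⟨a, ha, hg⟩)
        rw [this, zero_mul]
    rw [h2] at h1
    have hnn : ∀ z ∈ (univ : Finset (ZMod n)),
        0 ≤ (∑ a ∈ A, g (a - z)) * (∑ d ∈ U \ A, χ (d - z)) := by
      intro z _
      apply mul_nonneg _ (sum_nonneg (fun d _ => hχ0 _))
      by_cases hz : ∃ a ∈ A, g (a - z) ≠ 0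
      · have := Helper28.KZ.costuck_aux hA z hz
        unfold CE at this
        rw [this]; norm_num
      · push Not at hz
        rw [sum_eq_zero (fun a ha => hz a ha)]
    have h3 := (sum_eq_zero_iff_of_nonneg hnn).mp h1.symm
    intro y a ha d hd hga hgd
    have h4 := h3 y (mem_univ y)
    have h5 := Helper28.KZ.costuck_aux hA y ⟨a, ha, hga⟩
    unfold CE at h5
    rw [h5, one_mul] at h4
    have h6 := (sum_eq_zero_iff_of_nonneg (fun d _ => hχ0 (d - y))).mp h4 d hd
    exact absurd h6 (hχpos _ hgd).ne'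
  have second : ∀ s, ∀ a ∈ A, ∀ d ∈ U \ A, g (s - a) ≠ 0 → g (s - d) ≠ 0 → False := by
    have h1 := conv_swap77 g χ A (U \ A)
    have h2 : ∑ z, (∑ a ∈ A, χ (a - z)) * (∑ d ∈ U \ A, g (d - z)) = 0 := by
      apply sum_eq_zero
      intro z _
      by_cases hz : ∃ a ∈ A, g (a - z) ≠ 0
      · obtain ⟨a, ha, hga⟩ := hz
        have : ∑ d ∈ U \ A, g (d - z) = 0 := sum_eq_zero (fun d hd => by
          by_contra hgd
          exact first z a ha d hd hga hgd)
        rw [this, mul_zero]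
      · push Not at hz
        have : ∑ a ∈ A, χ (a - z) = 0 := sum_eq_zero (fun a ha => by
          simp only [hχ]
          rw [if_neg]
          exact not_not.mpr (hz a ha))
        rw [this, zero_mul]
    rw [h2] at h1
    have hnn : ∀ s ∈ (univ : Finset (ZMod n)),
        0 ≤ (∑ a ∈ A, g (s - a)) * (∑ d ∈ U \ A, χ (s - d)) := by
      intro s _
      apply mul_nonneg _ (sum_nonneg (fun d _ => hχ0 _))
      by_cases hs : Meets g A s
      · have := hA s hs
        unfold EE at this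
        rw [this]; norm_num
      · have := EE_zero77 hs
        unfold EE at this
        rw [this]
    have h3 := (sum_eq_zero_iff_of_nonneg hnn).mp h1
    intro s a ha d hd hga hgd
    have h4 := h3 s (mem_univ s)
    have h5 := hA s ⟨a, ha, hga⟩
    unfold EE at h5
    rw [h5, one_mul] at h4
    have h6 := (sum_eq_zero_iff_of_nonneg (fun d _ => hχ0 (s - d))).mp h4 d hd
    exact absurd h6 (hχpos _ hgd).ne'
  refine ⟨first, second, ?_⟩
  rintro s ⟨d, hd, hgd⟩
  have hnA : ¬ Meets g A s := fun ⟨a, ha, hga⟩ => second s a ha d hd hga hgd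
  have h1 := hsplit s
  rw [hU s ⟨d, (mem_sdiff.mp hd).1, hgd⟩, EE_zero77 hnA] at h1
  linarith

end Pool.Agent.Helper77.KZ
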