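import Pool.Agent.Helper77.KZ.Core
import Pool.Agent.Helper46.KZ.Claim
import Pool.Agent.Helper40.KZ.Chain
import Pool.Agent.Helper84.KZ.Pairs

/-!
Support file for MP_0aa406_nt (helper77): the value of the game for odd `n`.
-/

set_option autoImplicit false

namespace Pool.Agent.Helper77.KZ

open Finset
open scoped Pointwise

variable {n : ℕ}

theorem claim [NeZero n] {g : ZMod n → ℤ} (hg : IsSign g) (L : ℕ) (hL : 0 < L)
    (hat : ∀ Y, Atom g Y → Odd Y.card → (Y + TT g).card < L → (∀ X, X ⊂ Y → Val g X 0) →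
      Val g Y 0) (U : Finset (ZMod n)) :
    ∃ A ⊆ U, Stuck g A ∧ ∃ q : ℕ, Val g U (-(q : ℤ)) ∧ L * q ≤ (A + TT g).card :=
  Helper46.KZ.claim_of_nested hg (fun h1 h2 h3 => (nested h1 h2 h3).2) L hL hat U

theorem val_three [NeZero n] {g : ZMod n → ℤ} (he : 3 ≤ ∑ i, g i) : Val g univ 0 :=
  Helper40.KZ.val_three_of (fun h1 h2 h3 => (nested h1 h2 h3).1) he

theorem isSign_sign (m : ZMod n → ℤ) : IsSign (fun i => Int.sign (m i)) := by
  intro i
  rcases lt_trichotomy (m i) 0 with h | h | h
  · right; right; simpa using Int.sign_eq_neg_one_of_neg h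
  · left; simp [h]
  · right; left; simpa using Int.sign_eq_one_of_pos h

theorem rest_sign (m : ZMod n → ℤ) (U : Finset (ZMod n)) (s : ZMod n) :
    rest (fun i => Int.sign (m i)) U s = Helper18.Katz.rs m U s := by
  unfold rest Helper18.Katz.rs
  congr 1
  ext l
  exact Int.sign_eq_zero_iff_zero

theorem EE_sign (m : ZMod n → ℤ) (U : Finset (ZMod n)) (s : ZMod n) :
    EE (fun i => Int.sign (m i)) U s =
      (Helper18.Katz.ps m U s : ℤ) - Helper18.Katz.ng m U s := by
  unfold EE Helper18.Katz.ps Helper18.Katz.ng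
  rw [Finset.card_filter, Finset.card_filter]
  push_cast
  rw [← Finset.sum_sub_distrib]
  apply Finset.sum_congr rfl
  intro l _
  rcases lt_trichotomy (m (s - l)) 0 with h | h | h
  · rw [Int.sign_eq_neg_one_of_neg h, if_neg (not_lt.mpr h.le), if_pos h]; norm_num
  · rw [h]; simp
  · rw [Int.sign_eq_one_of_pos h, if_pos h, if_neg (not_lt.mpr h.le)]; norm_num

theorem play_hasF [NeZero n] (m : ZMod n → ℤ) {U : Finset (ZMod n)} {F : ℤ}
    (h : Play (fun i => Int.sign (m i)) U F) : Helper18.Katz.HasF m U F := by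
  induction h with
  | nil => exact Helper18.Katz.hasF_empty m
  | step U s F _ ih =>
    rw [rest_sign] at ih
    have h1 := ih.step (U := U) s
    rw [EE_sign]
    exact h1

theorem val_hasF [NeZero n] (m : ZMod n → ℤ) {U : Finset (ZMod n)} {F : ℤ}
    (h : Val (fun i => Int.sign (m i)) U F) : Helper18.Katz.HasF m U F := by
  obtain ⟨F', h1, h2⟩ := h
  exact (play_hasF m h2).mono h1

theorem hasVal_odd [NeZero n] (hodd : Odd n) (hn : n ≠ 1) (m : ZMod n → ℤ)
    (hτ : 2 ≤ (univ.filter (fun i => m i ≠ 0)).card) (c : ℤ)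
    (hc : 2 * c * n.minFac ≤ n * n.minFac - n) : Helper18.Katz.HasVal m univ c := by
  by_cases hpos : ∀ i, 0 ≤ m i
  · exact Helper84KZ.hasVal_pos hodd m hpos hτ c hc
  · push Not at hpos
    obtain ⟨i₀, hi₀⟩ := hpos
    set g : ZMod n → ℤ := fun i => Int.sign (m i) with hg
    have hgs : IsSign g := isSign_sign m
    have hneg : ∃ i, g i = -1 := ⟨i₀, Int.sign_eq_neg_one_of_neg hi₀⟩
    have hTT : TT g = univ.filter (fun i => m i ≠ 0) := by
      unfold TT
      congr 1
      ext i
      exact not_congr Int.sign_eq_zero_iff_zero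
    have hTne : (TT g).Nonempty := by
      rw [hTT]; exact Finset.card_pos.mp (by omega)
    have hfac : 0 < n.minFac := Nat.minFac_pos n
    have hq : ∃ q : ℕ, Val g univ (-(q : ℤ)) ∧ n.minFac * q ≤ n := by
      by_cases he3 : 3 ≤ ∑ i, g i
      · refine ⟨0, ?_, by simp⟩
        simpa using val_three he3
      · obtain ⟨A, _, _, q, h1, h2⟩ := claim hgs n.minFac hfac (by
          intro Y hY hYodd hsmall hsub
          have hcard := stuck_card hY.2.1
          have hYpos : 0 < Y.card := Finset.card_pos.mpr hY.1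
          have hpos' : 0 < (Y + TT g).card := Finset.card_pos.mpr (hY.1.add hTne)
          have hcd := cd hn hY.1 hTne hsmall
          rcases lt_trichotomy (∑ i, g i) 2 with h | h | h
          · exfalso
            have h3 : ((Y + TT g).card : ℤ) ≤ Y.card := by
              rw [hcard]
              have : (∑ i, g i) ≤ 1 := by omega
              have hY0 : (0 : ℤ) ≤ Y.card := by positivity
              nlinarith
            have h4 : (Y + TT g).card ≤ Y.card := by exact_mod_cast h3
            rw [hTT] at hcd h4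
            omega
          · exact core2 hodd hn hgs h hneg hY hYodd hsmall hsub
          · omega) univ
        refine ⟨q, h1, h2.trans ?_⟩
        have := Finset.card_le_univ (A + TT g)
        rwa [ZMod.card] at this
    obtain ⟨q, hv, hqn⟩ := hq
    obtain ⟨v, hv1, hv2⟩ := val_hasF m hv
    refine hv1.mono ?_
    rw [Finset.card_univ, ZMod.card] at hv2
    have hfz : (0 : ℤ) < n.minFac := by exact_mod_cast hfac
    have hqz : (n.minFac : ℤ) * q ≤ n := by exact_mod_cast hqn
    by_contra hcon
    push Not at hcon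
    have h5 : v + 1 ≤ c := hcon
    nlinarith

end Pool.Agent.Helper77.KZ
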