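import Mathlib

/-!
Support file for MP_0aa406_nt (helper77): definitions of the sign pattern game.
-/

set_option autoImplicit false

namespace Pool.Agent.Helper77.KZ

open Finset

variable {n : ℕ}

/-- `g` takes the values `0, 1, -1` only -/
def IsSign (g : ZMod n → ℤ) : Prop := ∀ i, g i = 0 ∨ g i = 1 ∨ g i = -1

/-- the support -/
def TT [NeZero n] (g : ZMod n → ℤ) : Finset (ZMod n) := univ.filter (fun i => g i ≠ 0)

/-- excess of the row `s` on `U` -/
def EE (g : ZMod n → ℤ) (U : Finset (ZMod n)) (s : ZMod n) : ℤ := ∑ l ∈ U, g (s - l)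

/-- excess of the reflected row `y` on `U` -/
def CE (g : ZMod n → ℤ) (U : Finset (ZMod n)) (y : ZMod n) : ℤ := ∑ a ∈ U, g (a - y)

/-- the part of `U` covered by the row `s` -/
def cov (g : ZMod n → ℤ) (U : Finset (ZMod n)) (s : ZMod n) : Finset (ZMod n) :=
  U.filter (fun l => g (s - l) ≠ 0)

/-- the part of `U` covered by the reflected row `y` -/
def cocov (g : ZMod n → ℤ) (U : Finset (ZMod n)) (y : ZMod n) : Finset (ZMod n) :=
  U.filter (fun a => g (a - y) ≠ 0)

/-- what is left of `U` after the row `s` -/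
def rest (g : ZMod n → ℤ) (U : Finset (ZMod n)) (s : ZMod n) : Finset (ZMod n) :=
  U.filter (fun l => g (s - l) = 0)

/-- the row `s` meets `U` -/
def Meets (g : ZMod n → ℤ) (U : Finset (ZMod n)) (s : ZMod n) : Prop := ∃ l ∈ U, g (s - l) ≠ 0

/-- all rows meeting `U` have excess one -/
def Stuck (g : ZMod n → ℤ) (U : Finset (ZMod n)) : Prop := ∀ s, Meets g U s → EE g U s = 1

/-- plays: `Play g U F` means that some sequence of rows covering `U` has total gain `F` -/
inductive Play (g : ZMod n → ℤ) : Finset (ZMod n) → ℤ → Prop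
  | nil : Play g ∅ 0
  | step (U : Finset (ZMod n)) (s : ZMod n) (F : ℤ) : Play g (rest g U s) F →
      Play g U (F + |EE g U s - 1| - 1)

/-- some play gains at least `F` -/
def Val (g : ZMod n → ℤ) (U : Finset (ZMod n)) (F : ℤ) : Prop := ∃ F', F ≤ F' ∧ Play g U F'

/-- nonempty stuck sets without proper nonempty stuck subset -/
def Atom (g : ZMod n → ℤ) (Y : Finset (ZMod n)) : Prop :=
  Y.Nonempty ∧ Stuck g Y ∧ ∀ A ⊆ Y, A.Nonempty → Stuck g A → A = Y

/-- sets reachable from `Y`: one row anywhere, then rows of excess `0` or `2` -/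
inductive Reach (g : ZMod n → ℤ) (Y : Finset (ZMod n)) : Finset (ZMod n) → Prop
  | first (j : ZMod n) : Meets g Y j → Reach g Y (rest g Y j)
  | next (X : Finset (ZMod n)) (k : ZMod n) : Reach g Y X → Meets g X k →
      (EE g X k = 0 ∨ EE g X k = 2) → Reach g Y (rest g X k)

open scoped Pointwise in
/-- arithmetic progressions of difference `d` (small sets) -/
def AP (d : ZMod n) (X : Finset (ZMod n)) : Prop := d ≠ 0 ∧ (X + {0, d}).card ≤ X.card + 1

end Pool.Agent.Helper77.KZ
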