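import Pool.Agent.Helper77.KZ.CoreN
import Pool.Agent.Helper77.KZ.Game
import Pool.Agent.Helper55.KZ.Even
import Pool.Agent.Helper55.KZ.Norm
import Pool.Agent.Helper18.Katz9

/-!
Support file for MP_0aa406_nt (helper77): the theorem for every degree which is not a power of `2`.
-/

set_option autoImplicit false

namespace Pool.Agent.Helper77.KZ

open Finset Filter

/-- the value of the game in degree `k` -/
def cc (k : ℕ) : ℕ := if Odd k then (k - k / k.minFac) / 2 else k / 2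

theorem cc_odd {k : ℕ} (hk : Odd k) (hk1 : k ≠ 1) :
    ∃ q s : ℕ, k.minFac = q ∧ q * s = k ∧ 2 * cc k + s = k := by
  have hq : k.minFac.Prime := Nat.minFac_prime hk1
  obtain ⟨s, hs⟩ := Nat.minFac_dvd k
  refine ⟨k.minFac, s, rfl, hs.symm, ?_⟩
  unfold cc
  rw [if_pos hk]
  have hqodd : Odd k.minFac := by
    rw [hs] at hk
    exact (Nat.odd_mul.mp hk).1
  have hdiv : k / k.minFac = s := Nat.div_eq_of_eq_mul_right hq.pos hs
  rw [hdiv]
  obtain ⟨r, hr⟩ := hqodd
  have h2 : k = (2 * r + 1) * s := by rw [← hr]; exact hs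
  have h4 : k = 2 * (r * s) + s := by rw [h2]; ring
  have h3 : k - s = 2 * (r * s) := by
    rw [h4, Nat.add_sub_cancel]
  rw [h3, Nat.mul_div_cancel_left _ (by omega)]
  exact h4.symm

theorem two_cc_le (k : ℕ) : 2 * cc k ≤ k := by
  unfold cc
  split_ifs
  · have h := Nat.sub_le k (k / k.minFac)
    generalize k - k / k.minFac = x at h ⊢
    omega
  · omega

theorem folds_pair (k : ℕ) (hk : 0 < k) [NeZero (2 * k)] (m : ZMod (2 * k) → ℤ) (R : ℤ)
    (hm : FoldsTo m k R) (t : ZMod (2 * k)) :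
    m t + m (t + (k : ZMod (2 * k))) = if t = 0 ∨ t = (k : ZMod (2 * k)) then R else 0 := by
  have hkval : ((k : ZMod (2 * k))).val = k := ZMod.val_natCast_of_lt (by omega)
  have htlt := ZMod.val_lt t
  have haddval : (t + (k : ZMod (2 * k))).val = (t.val + k) % (2 * k) := by
    rw [ZMod.val_add, hkval]
  have hne : t ≠ t + (k : ZMod (2 * k)) := by
    intro h
    have h0 : (k : ZMod (2 * k)) = 0 := by
      have := congrArg (fun x => x - t) h
      simpa using this.symm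
    have := congrArg ZMod.val h0
    rw [hkval] at this
    simp at this
    omega
  have h1 := hm (t.val % k) (Nat.mod_lt _ hk)
  have hset : (univ.filter (fun i : ZMod (2 * k) => i.val % k = t.val % k)) =
      {t, t + (k : ZMod (2 * k))} := by
    ext i
    simp only [mem_filter, mem_univ, true_and, mem_insert, mem_singleton]
    constructor
    · intro hi
      have hilt := ZMod.val_lt i
      have hcase : i.val = t.val ∨ i.val = (t.val + k) % (2 * k) := by
        have e1 := Nat.div_add_mod i.val k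
        have e2 := Nat.div_add_mod t.val k
        have d1 : i.val / k < 2 := Nat.div_lt_of_lt_mul (by linarith)
        have d2 : t.val / k < 2 := Nat.div_lt_of_lt_mul (by linarith)
        rcases Nat.lt_or_ge (t.val + k) (2 * k) with h | h
        · rw [Nat.mod_eq_of_lt h]
          have hq2 : t.val / k = 0 := Nat.div_eq_of_lt (by omega)
          rw [hq2] at e2
          interval_cases hq : i.val / k
          · left; omega
          · right; omega
        · have hmod : (t.val + k) % (2 * k) = t.val - k := by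
            rw [Nat.mod_eq_sub_mod h, Nat.mod_eq_of_lt (by omega)]
            omega
          rw [hmod]
          have hq2 : t.val / k = 1 := by
            have : 1 ≤ t.val / k := (Nat.one_le_div_iff hk).mpr (by omega)
            omega
          rw [hq2] at e2
          interval_cases hq : i.val / k
          · right; omega
          · left; omega
      rcases hcase with h | h
      · left; exact ZMod.val_injective _ h
      · right
        apply ZMod.val_injective
        rw [h, haddval]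
    · rintro (rfl | rfl)
      · rfl
      · rw [haddval, Nat.mod_mod_of_dvd _ (Dvd.intro_left 2 rfl), Nat.add_mod_right]
  rw [← Finset.sum_filter, hset, Finset.sum_pair hne] at h1
  rw [h1]
  have hiff : t.val % k = 0 ↔ (t = 0 ∨ t = (k : ZMod (2 * k))) := by
    constructor
    · intro h
      have e2 := Nat.div_add_mod t.val k
      have d2 : t.val / k < 2 := Nat.div_lt_of_lt_mul (by linarith)
      interval_cases hq : t.val / k
      · left
        apply ZMod.val_injective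
        rw [ZMod.val_zero]; omega
      · right
        apply ZMod.val_injective
        rw [hkval]; omega
    · rintro (rfl | rfl)
      · simp
      · rw [hkval, Nat.mod_self]
  by_cases h : t.val % k = 0
  · rw [if_pos h, if_pos (hiff.mp h)]
  · rw [if_neg h, if_neg (fun h' => h (hiff.mpr h'))]

theorem hasVal_cc {k : ℕ} [hne : NeZero k] (hk : 2 ≤ k) (m : ZMod k → ℤ) (R : ℤ) (hR : 0 < R)
    (hm : ∀ n' ∈ k.properDivisors, FoldsTo m n' R)
    (hτ : 2 ≤ (univ.filter (fun i => m i ≠ 0)).card) :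
    Helper18.Katz.HasVal m univ (cc k) := by
  by_cases hodd : Odd k
  · apply hasVal_odd hodd (by omega) m hτ
    obtain ⟨q, s, hq, hs, hc⟩ := cc_odd hodd (by omega)
    rw [hq]
    have h1 : 2 * (cc k : ℤ) + s = k := by exact_mod_cast hc
    have h2 : (q : ℤ) * s = k := by exact_mod_cast hs
    have h3 : 2 * (cc k : ℤ) * q = (k - s) * q := by
      rw [← h1]; ring
    rw [h3]
    have : ((k : ℤ) - s) * q = k * q - q * s := by ring
    rw [this, h2]
  · have heven : Even k := Nat.not_odd_iff_even.mp hodd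
    obtain ⟨j, hj⟩ := heven
    have hj' : k = 2 * j := by omega
    have hj0 : 0 < j := by omega
    have hcc : (cc k : ℤ) = j := by
      unfold cc
      rw [if_neg hodd, hj']
      simp
    rw [hcc]
    subst hj'
    exact Helper55.KZ.hasVal_even j hj0 rfl m R hR
      (folds_pair j hj0 m R (hm j (by rw [Nat.mem_properDivisors]; exact ⟨Dvd.intro_left 2 rfl, by omega⟩)))
      hτ

theorem good_deg (k : ℕ) [NeZero k] (hk : 2 ≤ k) : ∀ᶠ p : ℕ in atTop, ∀ d : ℤ,
    (∀ n' ∈ k.properDivisors, ∃ j : ℕ, d ≡ (p : ℤ) ^ j [ZMOD ((p : ℤ) ^ n' - 1)]) →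
    (∀ j : ℕ, ¬ d ≡ (p : ℤ) ^ j [ZMOD ((p : ℤ) ^ k - 1)]) →
    Helper18.Katz.Good p k d (cc k) := by
  have hcc : 2 * (cc k : ℤ) ≤ k := by exact_mod_cast two_cc_le k
  filter_upwards [coreN (n := k) hk (cc k) hcc (fun m R hR hm hτ => hasVal_cc hk m R hR hm hτ),
    eventually_ge_atTop 2] with p hp hp2 d hdeg hnd
  obtain ⟨j0, hj0⟩ := Helper55.KZ.normalise hp2 (show 0 < k by omega) d hdeg
  apply Helper55.KZ.good_twist hp2 d j0
  apply hp _ hj0
  intro j hj
  apply hnd (j + (k - 1) * j0)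
  have h1 : d * (p : ℤ) ^ j0 * (p : ℤ) ^ ((k - 1) * j0) ≡ (p : ℤ) ^ j * (p : ℤ) ^ ((k - 1) * j0)
      [ZMOD ((p : ℤ) ^ k - 1)] := hj.mul_right _
  rw [mul_assoc, ← pow_add, ← pow_add] at h1
  have h2 : j0 + (k - 1) * j0 = k * j0 := by
    obtain ⟨r, rfl⟩ : ∃ r, k = r + 1 := ⟨k - 1, by omega⟩
    simp only [Nat.add_sub_cancel]
    ring
  rw [h2] at h1
  have h3 := Helper55.KZ.pow_modEq_one (p := p) k j0
  have h4 : d * (p : ℤ) ^ (k * j0) ≡ d * 1 [ZMOD ((p : ℤ) ^ k - 1)] := h3.mul_left _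
  rw [mul_one] at h4
  exact h4.symm.trans h1

theorem conclude {p : ℕ} (hp : 2 ≤ p) (k n : ℕ) [NeZero k] (hkn : k ∣ n) (hn : 0 < n) (d : ℕ)
    (hd : Nat.Coprime d (p ^ n - 1)) (c : ℤ) (l : ℕ) (hc : 2 * (l : ℤ) * (k - c) ≤ (l + 1) * k)
    (h : Helper18.Katz.Good p k d c) :
    ∃ a b : ℕ, 0 < a ∧ a < p ^ n - 1 ∧ b < p ^ n - 1 ∧ (p ^ n - 1) ∣ d * a + b ∧
      2 * l * ((Nat.digits p a).sum + (Nat.digits p b).sum) ≤ (l + 1) * n * (p - 1) := by
  obtain ⟨t, rfl⟩ := hkn
  have ht : 0 < t := Nat.pos_of_mul_pos_left hn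
  have hdvd : (p ^ k - 1) ∣ (p ^ (k * t) - 1) := by
    rw [pow_mul]; exact Nat.sub_one_dvd_pow_sub_one _ _
  have hd' : Nat.Coprime d (p ^ k - 1) := Nat.Coprime.coprime_dvd_right hdvd hd
  have h1 := Helper18.Katz.digits_of_good hp d hd' c h
  obtain ⟨a, b, h2, h3, h4, h5, h6⟩ :=
    Helper18.Katz.lift_degree hp k t (NeZero.pos k) ht d _ h1
  refine ⟨a, b, h2, h3, h4, h5, ?_⟩
  generalize (Nat.digits p a).sum + (Nat.digits p b).sum = S at h6 ⊢
  have hp1 : (1 : ℤ) ≤ p := by exact_mod_cast (show 1 ≤ p by omega)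
  have h7 : ((2 * l * S : ℕ) : ℤ) ≤ (((l + 1) * (k * t) * (p - 1) : ℕ) : ℤ) := by
    push_cast [Nat.cast_sub (show 1 ≤ p by omega)]
    have e1 : 2 * (l : ℤ) * S ≤ 2 * l * (t * ((k - c) * ((p : ℤ) - 1))) :=
      mul_le_mul_of_nonneg_left h6 (by positivity)
    have e2 : 2 * (l : ℤ) * (t * ((k - c) * ((p : ℤ) - 1))) =
        (2 * (l : ℤ) * (k - c)) * (t * ((p : ℤ) - 1)) := by ring
    have e3 : (2 * (l : ℤ) * (k - c)) * (t * ((p : ℤ) - 1)) ≤
        ((l + 1) * k) * (t * ((p : ℤ) - 1)) :=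
      mul_le_mul_of_nonneg_right hc (mul_nonneg (by positivity) (by linarith))
    calc 2 * (l : ℤ) * S ≤ _ := e1
      _ = _ := e2
      _ ≤ _ := e3
      _ = ((l : ℤ) + 1) * (k * t) * (p - 1) := by ring
  exact_mod_cast h7

/-- the theorem: `m` is the degree of a subfield over which `d` is nondegenerate -/
theorem main_bound (m : ℕ) (hm : 0 < m) (l : ℕ) (hl : l.Prime) (hl2 : l ≠ 2) (hlm : l ∣ m)
    (hmin : ∀ q : ℕ, q.Prime → q ≠ 2 → q ∣ m → l ≤ q) :
    ∃ P : ℕ, ∀ p : ℕ, P ≤ p → ∀ n : ℕ, 0 < n → m ∣ n → ∀ d : ℕ, Nat.Coprime d (p ^ n - 1) →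
      (∀ k : ℕ, ¬ d ≡ p ^ k [MOD p ^ m - 1]) →
      ∃ a b : ℕ, 0 < a ∧ a < p ^ n - 1 ∧ b < p ^ n - 1 ∧ (p ^ n - 1) ∣ d * a + b ∧
        2 * l * ((Nat.digits p a).sum + (Nat.digits p b).sum) ≤ (l + 1) * n * (p - 1) := by
  classical
  have : NeZero m := ⟨hm.ne'⟩
  -- the constant for `m` itself
  obtain ⟨s, hs⟩ : ∃ s, l = 2 * s + 1 := by
    rcases hl.eq_two_or_odd' with h | h
    · exact absurd h hl2
    · obtain ⟨s, hs⟩ := h; exact ⟨s, hs⟩
  obtain ⟨m', hm'⟩ := hlm
  have hm'0 : 0 < m' := by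
    rcases Nat.eq_zero_or_pos m' with h | h
    · subst h; simp at hm'; omega
    · exact h
  obtain ⟨P1, hP1⟩ := Helper18.Katz.good_nonmod (n := m) ((m' * s : ℕ) : ℤ) (by
    have : 2 * (m' * s) + m' = m := by rw [hm', hs]; ring
    have h2 : 2 * (m' * s) ≤ m - 1 := by omega
    have h3 : ((2 * (m' * s) : ℕ) : ℤ) ≤ ((m - 1 : ℕ) : ℤ) := by exact_mod_cast h2
    rw [Nat.cast_sub (by omega)] at h3
    push_cast at h3 ⊢
    linarith)
  have hall : ∀ᶠ p : ℕ in atTop, ∀ k ∈ m.divisors, 2 ≤ k → ∀ hk : NeZero k, ∀ d : ℤ,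
      (∀ n' ∈ k.properDivisors, ∃ j : ℕ, d ≡ (p : ℤ) ^ j [ZMOD ((p : ℤ) ^ n' - 1)]) →
      (∀ j : ℕ, ¬ d ≡ (p : ℤ) ^ j [ZMOD ((p : ℤ) ^ k - 1)]) →
      Helper18.Katz.Good p k d (cc k) := by
    rw [Filter.eventually_all_finset]
    intro k hk
    by_cases hk2 : 2 ≤ k
    · have hnz : NeZero k := ⟨by omega⟩
      filter_upwards [good_deg k hk2] with p hp _ _ d h1 h2
      exact hp d h1 h2
    · exact Filter.Eventually.of_forall (fun p h => absurd h hk2)
  obtain ⟨P2, hP2⟩ := Filter.eventually_atTop.mp hall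
  refine ⟨max (max P1 P2) 2, fun p hp n hn hmn d hd hnd => ?_⟩
  have hp1 : P1 ≤ p := le_trans (le_trans (le_max_left _ _) (le_max_left _ _)) hp
  have hp2 : P2 ≤ p := le_trans (le_trans (le_max_right _ _) (le_max_left _ _)) hp
  have hp3 : 2 ≤ p := le_trans (le_max_right _ _) hp
  have hcastQ : ∀ k : ℕ, (((p ^ k - 1 : ℕ)) : ℤ) = (p : ℤ) ^ k - 1 := by
    intro k
    rw [Nat.cast_sub (Nat.one_le_pow _ _ (by omega))]; push_cast; rfl
  have hndz : ∀ j : ℕ, ¬ (d : ℤ) ≡ (p : ℤ) ^ j [ZMOD ((p : ℤ) ^ m - 1)] := by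
    intro j hj
    apply hnd j
    rw [← hcastQ] at hj
    have h1 : ((d : ℕ) : ℤ) ≡ ((p ^ j : ℕ) : ℤ) [ZMOD ((p ^ m - 1 : ℕ) : ℤ)] := by
      push_cast at hj ⊢
      exact hj
    exact (Int.natCast_modEq_iff).mp h1
  have hex : ∃ k : ℕ, k ∣ m ∧ ∀ j : ℕ, ¬ (d : ℤ) ≡ (p : ℤ) ^ j [ZMOD ((p : ℤ) ^ k - 1)] :=
    ⟨m, dvd_rfl, hndz⟩
  obtain ⟨hkm, hknd⟩ := Nat.find_spec hex
  have hkmin : ∀ k' < Nat.find hex, k' ∣ m →
      ∃ j : ℕ, (d : ℤ) ≡ (p : ℤ) ^ j [ZMOD ((p : ℤ) ^ k' - 1)] := by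
    intro k' hk' hk'm
    have := Nat.find_min hex hk'
    push Not at this
    exact this hk'm
  set k := Nat.find hex with hkdef
  have hk0 : 0 < k := Nat.pos_of_dvd_of_pos hkm hm
  rcases Nat.lt_or_ge k 2 with hk2 | hk2
  · -- nondegenerate over the prime field
    have hk1 : k = 1 := by omega
    rw [hk1, pow_one] at hknd
    have h0 : ¬ ((p : ℤ) - 1) ∣ (d : ℤ) - 1 := by
      intro h
      apply hknd 0
      rw [pow_zero]
      exact (Int.modEq_iff_dvd.mpr h).symm
    have hcop : IsCoprime (d : ℤ) ((p : ℤ) - 1) := by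
      have h1 : (p ^ 1 - 1) ∣ (p ^ n - 1) := by
        obtain ⟨r, hr⟩ : 1 ∣ n := one_dvd n
        rw [hr, pow_mul]; exact Nat.sub_one_dvd_pow_sub_one _ _
      have h2 : Nat.Coprime d (p ^ 1 - 1) := Nat.Coprime.coprime_dvd_right h1 hd
      have h3 := (Nat.isCoprime_iff_coprime).mpr h2
      rw [hcastQ, pow_one] at h3
      exact h3
    have hgood := hP1 p hp1 (d : ℤ) hcop h0
    apply conclude hp3 m n hmn hn d hd _ l _ hgood
    rw [hm', hs]
    push_cast
    apply le_of_eq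
    ring
  · have hnz : NeZero k := ⟨by omega⟩
    have hgood := hP2 p hp2 k (by rw [Nat.mem_divisors]; exact ⟨hkm, hm.ne'⟩) hk2 hnz (d : ℤ)
      (fun n' hn' => by
        rw [Nat.mem_properDivisors] at hn'
        exact hkmin n' hn'.2 (hn'.1.trans hkm)) hknd
    apply conclude hp3 k n (hkm.trans hmn) hn d hd _ l _ hgood
    by_cases hodd : Odd k
    · obtain ⟨q, r, hq, hqr, hc⟩ := cc_odd hodd (by omega)
      have hlq : l ≤ q := by
        have hqp : q.Prime := by rw [← hq]; exact Nat.minFac_prime (by omega)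
        apply hmin q hqp
        · rintro rfl
          have : (2 : ℕ) ∣ k := by rw [← hq]; exact Nat.minFac_dvd k
          exact (Nat.not_even_iff_odd.mpr hodd) (even_iff_two_dvd.mpr this)
        · exact (Dvd.intro _ hqr).trans hkm
      have h1 : 2 * (cc k : ℤ) + r = k := by exact_mod_cast hc
      have h2 : (q : ℤ) * r = k := by exact_mod_cast hqr
      have h3 : (l : ℤ) ≤ q := by exact_mod_cast hlq
      have h4 : (0 : ℤ) ≤ r := by positivity
      nlinarith [mul_le_mul_of_nonneg_right h3 h4]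
    · have hcc : 2 * (cc k : ℤ) = k := by
        obtain ⟨j, hj⟩ := Nat.not_odd_iff_even.mp hodd
        have : 2 * cc k = k := by
          unfold cc
          rw [if_neg hodd]
          omega
        exact_mod_cast this
      have h4 : (0 : ℤ) ≤ k := by positivity
      have h5 : 2 * (l : ℤ) * (k - cc k) = l * k := by
        have : (2 : ℤ) * (k - cc k) = k := by linarith
        calc 2 * (l : ℤ) * (k - cc k) = l * (2 * (k - cc k)) := by ring
          _ = l * k := by rw [this]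
      rw [h5]
      nlinarith

end Pool.Agent.Helper77.KZ
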