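import Pool.Agent.Helper18.Katz8
import Pool.Agent.Helper45.KZ.Folds

/-!
Support file for MP_0aa406_nt (helper77): algebra of relations modulo `X ^ n - 1` and the
`n`-th cyclotomic polynomial.
-/

set_option autoImplicit false

namespace Pool.Agent.Helper77.KZ

open Finset Polynomial

variable {n : ℕ}

/-- sum of the coefficients whose index is `j` modulo `k` -/
noncomputable def resid (k j : ℕ) : ℤ[X] →ₗ[ℤ] ℤ :=
  Polynomial.lsum (fun i => if i % k = j then LinearMap.id else 0)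

theorem resid_monomial (k j i : ℕ) (c : ℤ) :
    resid k j (C c * X ^ i) = if i % k = j then c else 0 := by
  rw [C_mul_X_pow_eq_monomial]
  unfold resid
  rw [lsum_apply, sum_monomial_index _ _ (by simp)]
  split_ifs <;> simp

theorem resid_mul (k j : ℕ) (G : ℤ[X]) : resid k j ((X ^ k - 1) * G) = 0 := by
  induction G using Polynomial.induction_on' with
  | add p q hp hq => rw [mul_add, map_add, hp, hq, add_zero]
  | monomial i c =>
    rw [← C_mul_X_pow_eq_monomial]
    have : (X ^ k - 1 : ℤ[X]) * (C c * X ^ i) = C c * X ^ (i + k) - C c * X ^ i := by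
      rw [pow_add]; ring
    rw [this, map_sub, resid_monomial, resid_monomial, Nat.add_mod_right, sub_self]

theorem resid_of_dvd (k j : ℕ) (F : ℤ[X]) (R : ℤ) (h : (X ^ k - 1 : ℤ[X]) ∣ F - C R)
    (hj : j < k) : resid k j F = if j = 0 then R else 0 := by
  obtain ⟨G, hG⟩ := h
  have h1 : F = C R * X ^ 0 + (X ^ k - 1) * G := by rw [← hG]; simp
  rw [h1, map_add, resid_mul, add_zero, resid_monomial]
  rw [Nat.zero_mod]
  simp only [eq_comm]

theorem sum_fold_resid [NeZero n] (F : ℤ[X]) (k j : ℕ) (hk : k ∣ n) :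
    (∑ i : ZMod n, if i.val % k = j then Helper18.Katz.fold n F i else 0) = resid k j F := by
  unfold Helper18.Katz.fold resid
  rw [lsum_apply, Polynomial.sum_over_range _ (by intro i; simp)]
  have h1 : ∀ i : ZMod n, (if i.val % k = j then
      ∑ s ∈ range (F.natDegree + 1), (if ((s : ℕ) : ZMod n) = i then F.coeff s else 0) else 0) =
      ∑ s ∈ range (F.natDegree + 1),
        if ((s : ℕ) : ZMod n) = i then (if i.val % k = j then F.coeff s else 0) else 0 := by
    intro i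
    split_ifs with h
    · rfl
    · simp
  rw [Finset.sum_congr rfl (fun i _ => h1 i), Finset.sum_comm]
  apply Finset.sum_congr rfl
  intro s _
  rw [Finset.sum_ite_eq]
  simp only [mem_univ, if_true]
  rw [ZMod.val_natCast, Nat.mod_mod_of_dvd _ hk]
  split_ifs <;> simp

theorem dvd_of_folds77 [NeZero n] (w : ZMod n → ℤ) (n' : ℕ) (hn' : n' ≠ 0)
    (h : FoldsTo w n' 0) : (X ^ n' - 1 : ℤ[X]) ∣ Helper18.Katz.toPoly n w := by
  have h1 : (X ^ n' - 1 : ℤ[X]) ∣ Helper18.Katz.toPoly n w -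
      ∑ i : ZMod n, C (w i) * X ^ (i.val % n') := by
    unfold Helper18.Katz.toPoly
    rw [← Finset.sum_sub_distrib]
    refine Finset.dvd_sum fun i _ => ?_
    have h2 : C (w i) * X ^ i.val - C (w i) * X ^ (i.val % n') =
        C (w i) * X ^ (i.val % n') * (((X : ℤ[X]) ^ n') ^ (i.val / n') - 1) := by
      have h3 : (X : ℤ[X]) ^ i.val = X ^ (i.val % n') * (X ^ n') ^ (i.val / n') := by
        rw [← pow_mul, ← pow_add, Nat.mod_add_div]
      rw [h3]; ring
    rw [h2]
    exact Dvd.dvd.mul_left (sub_one_dvd_pow_sub_one _ _) _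
  have h4 : ∑ i : ZMod n, C (w i) * (X : ℤ[X]) ^ (i.val % n') = 0 := by
    have h5 : ∑ i : ZMod n, C (w i) * (X : ℤ[X]) ^ (i.val % n') = ∑ j ∈ range n',
        C (∑ i : ZMod n, if i.val % n' = j then w i else 0) * (X : ℤ[X]) ^ j := by
      simp only [map_sum, Finset.sum_mul]
      rw [Finset.sum_comm]
      refine Finset.sum_congr rfl fun i _ => ?_
      rw [Finset.sum_eq_single (i.val % n')]
      · rw [if_pos rfl]
      · intro j _ hj
        rw [if_neg (fun h => hj h.symm), map_zero, zero_mul]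
      · intro h6
        exact absurd (Finset.mem_range.2 (Nat.mod_lt _ (Nat.pos_of_ne_zero hn'))) h6
    rw [h5]
    refine Finset.sum_eq_zero fun j hj => ?_
    rw [h j (Finset.mem_range.1 hj), ite_self, map_zero, zero_mul]
  rwa [h4, sub_zero] at h1

theorem bezout77 (U V : ℤ[X])
    (h : IsCoprime (U.map (Int.castRingHom ℚ)) (V.map (Int.castRingHom ℚ))) :
    ∃ (A B : ℤ[X]) (R : ℤ), 0 < R ∧ A * U + B * V = C R := by
  obtain ⟨A', B', hAB⟩ := h
  obtain ⟨b1, hb1⟩ := IsLocalization.integerNormalization_map_to_map (nonZeroDivisors ℤ) A'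
  obtain ⟨b2, hb2⟩ := IsLocalization.integerNormalization_map_to_map (nonZeroDivisors ℤ) B'
  set A1 := IsLocalization.integerNormalization (nonZeroDivisors ℤ) A'
  set B1 := IsLocalization.integerNormalization (nonZeroDivisors ℤ) B'
  set r1 : ℤ := (b1 : ℤ) with hr1
  set r2 : ℤ := (b2 : ℤ) with hr2
  have hr10 : r1 ≠ 0 := nonZeroDivisors.ne_zero b1.2
  have hr20 : r2 ≠ 0 := nonZeroDivisors.ne_zero b2.2
  refine ⟨C (r1 * r2 * r2) * A1, C (r1 * r2 * r1) * B1, (r1 * r2) ^ 2, by positivity, ?_⟩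
  have hinj : Function.Injective (Polynomial.map (Int.castRingHom ℚ)) :=
    map_injective _ (RingHom.injective_int (Int.castRingHom ℚ))
  apply hinj
  have e1 : A1.map (Int.castRingHom ℚ) = C (r1 : ℚ) * A' := by
    have := hb1
    rw [show (algebraMap ℤ ℚ) = Int.castRingHom ℚ from rfl] at this
    rw [this]
    ext k
    simp [hr1, Submonoid.smul_def]
  have e2 : B1.map (Int.castRingHom ℚ) = C (r2 : ℚ) * B' := by
    have := hb2
    rw [show (algebraMap ℤ ℚ) = Int.castRingHom ℚ from rfl] at this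
    rw [this]
    ext k
    simp [hr2, Submonoid.smul_def]
  simp only [Polynomial.map_add, Polynomial.map_mul, map_C, e1, e2, Int.coe_castRingHom]
  push_cast
  simp only [C_mul, C_pow]
  linear_combination (C (r1 : ℚ) * C (r2 : ℚ)) ^ 2 * hAB

theorem cyclo_map_dvd77 (hn : 0 < n) (U : ℤ[X])
    (h : (cyclotomic n ℚ) ∣ U.map (Int.castRingHom ℚ)) : cyclotomic n ℤ ∣ U := by
  have hmonic := cyclotomic.monic n ℤ
  rw [← map_cyclotomic_int n ℚ] at h
  exact (Polynomial.map_dvd_map (Int.castRingHom ℚ) (RingHom.injective_int _) hmonic).mp h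

theorem reduce_of [NeZero n] (hn : 2 ≤ n)
    (hcyc : ∃ g₀ : ℤ, 0 < g₀ ∧ ∀ p x : ℤ, (∀ n' ∈ n.properDivisors, (p ^ n' - 1) ∣ x) →
      (p ^ n - 1) ∣ g₀ * x * (cyclotomic n ℤ).eval p)
    (u m : ZMod n → ℤ)
    (hu : ¬ cyclotomic n ℤ ∣ Helper18.Katz.toPoly n u)
    (hum : ∀ n' ∈ n.properDivisors, FoldsTo (fun i => u i - m i) n' 0) :
    ∃ (m' : ZMod n → ℤ) (R : ℤ), 0 < R ∧ (∑ i, m' i = R) ∧
      (∀ n' ∈ n.properDivisors, FoldsTo m' n' R) ∧
      ∀ p d : ℤ, (∀ n' ∈ n.properDivisors, (p ^ n' - 1) ∣ d - 1) →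
        d * ∑ i, u i * p ^ i.val ≡ ∑ i, m i * p ^ i.val [ZMOD (p ^ n - 1)] →
        d * ∑ i, m' i ≡ ∑ i, m' i * p ^ i.val [ZMOD (p ^ n - 1)] := by
  have hnpos : 0 < n := NeZero.pos n
  set U := Helper18.Katz.toPoly n u with hU
  set M := Helper18.Katz.toPoly n m with hM
  set Φ := cyclotomic n ℤ with hΦ
  have hcop : IsCoprime (U.map (Int.castRingHom ℚ)) (Φ.map (Int.castRingHom ℚ)) := by
    rw [hΦ, map_cyclotomic_int n ℚ]
    apply IsCoprime.symm
    rw [(cyclotomic.irreducible_rat hnpos).coprime_iff_not_dvd]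
    intro h
    exact hu (cyclo_map_dvd77 hnpos U h)
  obtain ⟨A, B, R1, hR1, hAB⟩ := bezout77 U Φ hcop
  obtain ⟨g₀, hg₀, hcyc⟩ := hcyc
  set F : ℤ[X] := C g₀ * (A * M + B * Φ) with hF
  have hsub : Helper18.Katz.toPoly n (fun i => u i - m i) = U - M := by
    rw [hU, hM]
    unfold Helper18.Katz.toPoly
    rw [← Finset.sum_sub_distrib]
    refine Finset.sum_congr rfl fun i _ => ?_
    rw [C_sub]; ring
  have hFR : ∀ n' ∈ n.properDivisors, (X ^ n' - 1 : ℤ[X]) ∣ F - C (g₀ * R1) := by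
    intro n' hn'
    have hn'0 : n' ≠ 0 := (Nat.pos_of_mem_properDivisors hn').ne'
    have h1 := dvd_of_folds77 (fun i => u i - m i) n' hn'0 (hum n' hn')
    rw [hsub] at h1
    have h2 : F - C (g₀ * R1) = -(C g₀ * A) * (U - M) := by
      rw [hF, C_mul, ← hAB]; ring
    rw [h2]
    exact Dvd.dvd.mul_left h1 _
  have hfold : ∀ n' ∈ n.properDivisors, FoldsTo (Helper18.Katz.fold n F) n' (g₀ * R1) := by
    intro n' hn' j hj
    rw [sum_fold_resid F n' j (Nat.mem_properDivisors.mp hn').1]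
    exact resid_of_dvd n' j F (g₀ * R1) (hFR n' hn') hj
  have hsum : ∑ i, Helper18.Katz.fold n F i = g₀ * R1 := by
    have h1 : (1 : ℕ) ∈ n.properDivisors := by
      rw [Nat.mem_properDivisors]; exact ⟨one_dvd _, by omega⟩
    have h2 := hfold 1 h1 0 (by norm_num)
    rw [if_pos rfl] at h2
    rw [← h2]
    apply Finset.sum_congr rfl
    intro i _
    rw [if_pos (Nat.mod_one _)]
  refine ⟨Helper18.Katz.fold n F, g₀ * R1, mul_pos hg₀ hR1, hsum, hfold, ?_⟩
  intro p d hd hrel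
  rw [hsum]
  refine Int.ModEq.trans ?_ (Helper18.Katz.fold_eval _ _).symm
  have hAe := congrArg (eval p) hAB
  simp only [eval_add, eval_mul, eval_C] at hAe
  rw [hF]
  simp only [eval_mul, eval_add, eval_C]
  have hUe : eval p U = ∑ i, u i * p ^ i.val := Helper18.Katz.eval_toPoly u p
  have hMe : eval p M = ∑ i, m i * p ^ i.val := Helper18.Katz.eval_toPoly m p
  rw [← hUe, ← hMe] at hrel
  have h3 := hcyc p (d - 1) hd
  rw [Int.modEq_iff_dvd] at hrel ⊢
  obtain ⟨s, hs⟩ := hrel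
  obtain ⟨t, ht⟩ := h3
  refine ⟨g₀ * eval p A * s - eval p B * t, ?_⟩
  rw [← hAe]
  linear_combination (g₀ * eval p A) * hs - (eval p B) * ht

end Pool.Agent.Helper77.KZ
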