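import Pool.Agent.Helper77.KZ.Alg

/-!
Support file for MP_0aa406_nt (helper77): divisibility by values of cyclotomic polynomials.
-/

set_option autoImplicit false

namespace Pool.Agent.Helper77.KZ

open Finset Polynomial

variable {n : ℕ}

theorem prod_dvd77 {ι : Type*} [DecidableEq ι] (f : ι → ℤ[X]) (S : Finset ι) :
    (∀ i ∈ S, ∀ j ∈ S, i ≠ j →
      IsCoprime ((f i).map (Int.castRingHom ℚ)) ((f j).map (Int.castRingHom ℚ))) →
    ∃ g : ℤ, 0 < g ∧ ∀ p x : ℤ, (∀ i ∈ S, (f i).eval p ∣ x) → (∏ i ∈ S, (f i).eval p) ∣ g * x := by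
  induction S using Finset.induction_on with
  | empty =>
    intro _
    exact ⟨1, one_pos, fun p x _ => by simp⟩
  | insert a S ha ih =>
    intro hco
    obtain ⟨g, hg, hgx⟩ := ih (fun i hi j hj hij => hco i (mem_insert_of_mem hi) j
      (mem_insert_of_mem hj) hij)
    have h1 : IsCoprime ((f a).map (Int.castRingHom ℚ))
        ((∏ i ∈ S, f i).map (Int.castRingHom ℚ)) := by
      rw [Polynomial.map_prod]
      apply IsCoprime.prod_right
      intro i hi
      exact hco a (mem_insert_self _ _) i (mem_insert_of_mem hi) (fun h => ha (h ▸ hi))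
    obtain ⟨A, B, R, hR, hAB⟩ := bezout77 _ _ h1
    refine ⟨R * g, mul_pos hR hg, fun p x hx => ?_⟩
    rw [Finset.prod_insert ha]
    obtain ⟨s, hs⟩ := hx a (mem_insert_self _ _)
    obtain ⟨t, ht⟩ := hgx p x (fun i hi => hx i (mem_insert_of_mem hi))
    have h2 := congrArg (eval p) hAB
    simp only [eval_add, eval_mul, eval_C, eval_prod] at h2
    refine ⟨eval p A * t + eval p B * g * s, ?_⟩
    rw [← h2]
    linear_combination (eval p A * eval p (f a)) * ht + (eval p B * (∏ i ∈ S, eval p (f i)) * g) * hs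

theorem cyclotomic_dvd_of77 [NeZero n] : ∃ g₀ : ℤ, 0 < g₀ ∧ ∀ p x : ℤ,
    (∀ n' ∈ n.properDivisors, (p ^ n' - 1) ∣ x) →
    (p ^ n - 1) ∣ g₀ * x * (cyclotomic n ℤ).eval p := by
  have hnpos : 0 < n := NeZero.pos n
  obtain ⟨g, hg, hgx⟩ := prod_dvd77 (fun k => cyclotomic k ℤ) n.properDivisors (by
    intro i _ j _ hij
    rw [map_cyclotomic_int, map_cyclotomic_int]
    exact cyclotomic.isCoprime_rat hij)
  refine ⟨g, hg, fun p x hx => ?_⟩
  have h1 := hgx p x (fun i hi => by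
    refine dvd_trans ?_ (hx i hi)
    have h4 : cyclotomic i ℤ ∣ (X ^ i - 1 : ℤ[X]) := cyclotomic.dvd_X_pow_sub_one i ℤ
    have := eval_dvd (x := p) h4
    simpa using this)
  have h2 : p ^ n - 1 = (∏ i ∈ n.properDivisors, (cyclotomic i ℤ).eval p) *
      (cyclotomic n ℤ).eval p := by
    have h3 := congrArg (eval p) (prod_cyclotomic_eq_X_pow_sub_one hnpos ℤ)
    rw [← Nat.cons_self_properDivisors hnpos.ne', Finset.prod_cons] at h3
    simp only [eval_mul, eval_sub, eval_pow, eval_X, eval_one, eval_prod] at h3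
    rw [← h3, mul_comm]
  rw [h2]
  exact mul_dvd_mul_right h1 _

open Polynomial in
theorem reduce_relation [NeZero n] (hn : 2 ≤ n) (u m : ZMod n → ℤ)
    (hu : ¬ cyclotomic n ℤ ∣ Helper18.Katz.toPoly n u)
    (hum : ∀ n' ∈ n.properDivisors, FoldsTo (fun i => u i - m i) n' 0) :
    ∃ (m' : ZMod n → ℤ) (R : ℤ), 0 < R ∧ (∑ i, m' i = R) ∧
      (∀ n' ∈ n.properDivisors, FoldsTo m' n' R) ∧
      ∀ p d : ℤ, (∀ n' ∈ n.properDivisors, (p ^ n' - 1) ∣ d - 1) →
        d * ∑ i, u i * p ^ i.val ≡ ∑ i, m i * p ^ i.val [ZMOD (p ^ n - 1)] →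
        d * ∑ i, m' i ≡ ∑ i, m' i * p ^ i.val [ZMOD (p ^ n - 1)] :=
  reduce_of hn cyclotomic_dvd_of77 u m hu hum

end Pool.Agent.Helper77.KZ
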