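import Pool.Agent.Helper77.KZ.Two
import Pool.Agent.Helper77.KZ.Swap
import Pool.Agent.Helper7.KZ.Reach
import Pool.Agent.Helper82.KZ.Struct
import Pool.Agent.Helper28.KZ.NoStuck
import Pool.Agent.Helper83.KZ.Flat

/-!
Support file for MP_0aa406_nt (helper77): excess two, small odd atoms are harmless.
-/

set_option autoImplicit false

namespace Pool.Agent.Helper77.KZ

open Finset Pool.Agent.Helper28.KZ
open scoped Pointwise

variable {n : ℕ}

theorem core2 [NeZero n] (hodd : Odd n) (hn : n ≠ 1) {g : ZMod n → ℤ} (hg : IsSign g)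
    (he : ∑ i, g i = 2) (hneg : ∃ i, g i = -1) {Y : Finset (ZMod n)} (hY : Atom g Y)
    (hYodd : Odd Y.card) (hsmall : (Y + TT g).card < n.minFac)
    (hsub : ∀ X, X ⊂ Y → Val g X 0) : Val g Y 0 := by
  by_contra hbad
  have hst : Stuck g Y := hY.2.1
  have hYT : (Y + TT g).card = 2 * Y.card := by
    have h1 := stuck_card hst
    rw [he] at h1
    have h2 : ((Y + TT g).card : ℤ) = ((2 * Y.card : ℕ) : ℤ) := by
      rw [h1]; push_cast; ring
    exact_mod_cast h2
  have hr : ∀ X, Reach g Y X → ∀ k, Meets g X k →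
      EE g X k = 0 ∨ EE g X k = 1 ∨ EE g X k = 2 :=
    fun X hX k hk => reach_val hst hsub hbad hX hk
  obtain ⟨X, hXY, hX, h012, hcov, hex⟩ := min_remainder hn hg he hneg hY hYT hsmall hr
  have h2 := card_two hodd hn hg he hneg hXY hX hYodd hYT hsmall h012 hcov hex
  obtain ⟨x, x', hxx, rfl⟩ := Finset.card_eq_two.mp h2
  set p : ZMod n := x' - x with hp
  have hp0 : p ≠ 0 := sub_ne_zero.mpr hxx.symm
  have hEE : ∀ k, EE g {x, x'} k = g (k - x) + g (k - x') := by
    intro k
    unfold EE
    rw [Finset.sum_pair hxx]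
  have hpm : ∀ t, g t = -1 → g (t + p) = 1 ∧ g (t - p) = 1 := by
    intro t ht
    constructor
    · have hm : Meets g {x, x'} (x' + t) := ⟨x', by simp, by simp [ht]⟩
      have h3 := h012 _ hm
      rw [hEE] at h3
      have e1 : x' + t - x' = t := by ring
      have e2 : x' + t - x = t + p := by rw [hp]; ring
      rw [e1, e2, ht] at h3
      rcases hg (t + p) with h | h | h <;> rw [h] at h3 ⊢ <;> omega
    · have hm : Meets g {x, x'} (x + t) := ⟨x, by simp, by simp [ht]⟩
      have h3 := h012 _ hm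
      rw [hEE] at h3
      have e1 : x + t - x = t := by ring
      have e2 : x + t - x' = t - p := by rw [hp]; ring
      rw [e1, e2, ht] at h3
      rcases hg (t - p) with h | h | h <;> rw [h] at h3 ⊢ <;> omega
  have hTY : (TT g).card ≤ (Y + TT g).card := Finset.card_le_card_add_left hY.1
  have hflat : ∀ δ : ZMod n, δ ≠ 0 → |∑ t, if g (t + δ) ≠ 0 then g t else 0| ≤ 1 :=
    fun δ hδ => flat hY.1 hYT hsmall (fun i j => overlap_le_one hst hr i j) δ hδ
  obtain ⟨σ, c, hc, hc2, hsym⟩ := struct hodd hg he hneg (by omega) hp0 hpm hflat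
  have hτ3 : 3 ≤ (TT g).card := by
    have h4 := card_TT hg
    rw [he] at h4
    have h5 : 0 < (univ.filter (fun i => g i = -1)).card := by
      obtain ⟨i, hi⟩ := hneg
      exact Finset.card_pos.mpr ⟨i, by simpa using hi⟩
    have h6 : ((TT g).card : ℤ) ≥ 4 := by
      rw [h4]
      have : (1 : ℤ) ≤ ((univ.filter (fun i => g i = -1)).card : ℤ) := by exact_mod_cast h5
      linarith
    omega
  exact no_stuck hn he hτ3 hc hc2 hsym hst hY.1 hsmall

end Pool.Agent.Helper77.KZ
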