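import Pool.Agent.Helper77.KZ.Alg2
import Pool.Agent.Helper5.KZ.Generic
import Pool.Agent.Helper45.KZ.Rel

/-!
Support file for MP_0aa406_nt (helper77): the reduction for general `n`.
-/

set_option autoImplicit false

namespace Pool.Agent.Helper77.KZ

open Finset Filter

variable {n : ℕ}

theorem per_pairN [NeZero n] (hn : 2 ≤ n) (c : ℤ) (hc : 2 * c ≤ n)
    (hval : ∀ (m : ZMod n → ℤ) (R : ℤ), 0 < R → (∀ n' ∈ n.properDivisors, FoldsTo m n' R) →
      2 ≤ (univ.filter (fun i => m i ≠ 0)).card → Helper18.Katz.HasVal m univ c)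
    (u m : ZMod n → ℤ) (hnt : ¬ (u = m ∧ Polynomial.cyclotomic n ℤ ∣ Helper18.Katz.toPoly n u)) :
    ∀ᶠ p : ℕ in atTop, ∀ d : ℤ, (∀ n' ∈ n.properDivisors, ((p : ℤ) ^ n' - 1) ∣ d - 1) →
      (∀ k : ℕ, ¬ d ≡ (p : ℤ) ^ k [ZMOD ((p : ℤ) ^ n - 1)]) →
      d * ∑ i, u i * (p : ℤ) ^ i.val ≡ ∑ i, m i * (p : ℤ) ^ i.val [ZMOD ((p : ℤ) ^ n - 1)] →
      Helper18.Katz.Good p n d c := by
  by_cases hu : Polynomial.cyclotomic n ℤ ∣ Helper18.Katz.toPoly n u
  · filter_upwards [trivial_of_dvd hn u m hu] with p hp d h1 _ h3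
    exact absurd ⟨hp d h1 h3, hu⟩ hnt
  · by_cases hum : ∀ n' ∈ n.properDivisors, FoldsTo (fun i => u i - m i) n' 0
    · obtain ⟨m', R, hR, hsum, hfold, hrel⟩ := reduce_relation hn u m hu hum
      by_cases hsupp : 2 ≤ (univ.filter (fun i => m' i ≠ 0)).card
      · obtain ⟨P0, hP0⟩ := Helper18.Katz.good_local m' c (by rw [hsum]; exact hR)
          (hval m' R hR hfold hsupp)
        filter_upwards [eventually_ge_atTop P0] with p hp d h1 _ h3
        exact hP0 p hp d (hrel p d h1 h3)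
      · have hne : (univ.filter (fun i => m' i ≠ 0)).Nonempty := by
          rw [Finset.nonempty_iff_ne_empty]
          intro h0
          rw [Finset.filter_eq_empty_iff] at h0
          have : ∑ i, m' i = 0 := Finset.sum_eq_zero (fun i _ => by
            have := h0 (mem_univ i)
            push Not at this
            exact this)
          omega
        obtain ⟨k, hk⟩ := hne
        have huniq : ∀ i, i ≠ k → m' i = 0 := by
          intro i hi
          by_contra hmi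
          apply hsupp
          have h1 : ({i, k} : Finset (ZMod n)) ⊆ univ.filter (fun i => m' i ≠ 0) := by
            intro x hx
            simp only [mem_insert, mem_singleton] at hx
            rcases hx with rfl | rfl
            · simpa using hmi
            · exact hk
          calc 2 = ({i, k} : Finset (ZMod n)).card := by
                rw [Finset.card_insert_of_notMem (by simpa using hi), Finset.card_singleton]
            _ ≤ _ := Finset.card_le_card h1
        have hRk : ∑ i, m' i = m' k := Finset.sum_eq_single k (fun i _ hi => huniq i hi)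
          (fun h => absurd (mem_univ _) h)
        have hmk : 0 < m' k := by rw [← hRk, hsum]; exact hR
        obtain ⟨P0, hP0⟩ := Helper18.Katz.good_mono (n := n) (m' k) hmk k c hc
        filter_upwards [eventually_ge_atTop P0] with p hp d h1 h2 h3
        have h4 := hrel p d h1 h3
        rw [hRk] at h4
        have h5 : ∑ i, m' i * (p : ℤ) ^ i.val = m' k * (p : ℤ) ^ k.val :=
          Finset.sum_eq_single k (fun i _ hi => by rw [huniq i hi, zero_mul])
            (fun h => absurd (mem_univ _) h)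
        rw [h5] at h4
        exact hP0 p hp d h4 (h2 _)
    · push Not at hum
      obtain ⟨n', hn', hnf⟩ := hum
      filter_upwards [folds_of_relation u m n' hn'] with p hp d h1 _ h3
      exact absurd (hp d (h1 n' hn') h3) hnf

theorem coreN [NeZero n] (hn : 2 ≤ n) (c : ℤ) (hc : 2 * c ≤ n)
    (hval : ∀ (m : ZMod n → ℤ) (R : ℤ), 0 < R → (∀ n' ∈ n.properDivisors, FoldsTo m n' R) →
      2 ≤ (univ.filter (fun i => m i ≠ 0)).card → Helper18.Katz.HasVal m univ c) :
    ∀ᶠ p : ℕ in atTop, ∀ d : ℤ, (∀ n' ∈ n.properDivisors, ((p : ℤ) ^ n' - 1) ∣ d - 1) →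
      (∀ k : ℕ, ¬ d ≡ (p : ℤ) ^ k [ZMOD ((p : ℤ) ^ n - 1)]) →
      Helper18.Katz.Good p n d c := by
  obtain ⟨r, _, hgen⟩ := Helper5.KZ.generic (n := n) hn
  set I : Set ((ZMod n → ℤ) × (ZMod n → ℤ)) :=
    {q | (∀ i, |q.1 i| ≤ r) ∧ (∀ i, |q.2 i| ≤ r)} with hI
  have hIfin : I.Finite := by
    have h1 : I ⊆ (Set.Icc (fun _ : ZMod n => -r) (fun _ : ZMod n => r)) ×ˢ
        (Set.Icc (fun _ : ZMod n => -r) (fun _ : ZMod n => r)) := by
      rintro ⟨u, m⟩ ⟨h1, h2⟩
      exact ⟨⟨fun i => (abs_le.mp (h1 i)).1, fun i => (abs_le.mp (h1 i)).2⟩,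
        ⟨fun i => (abs_le.mp (h2 i)).1, fun i => (abs_le.mp (h2 i)).2⟩⟩
    exact ((Set.finite_Icc _ _).prod (Set.finite_Icc _ _)).subset h1
  have hall : ∀ᶠ p : ℕ in atTop, ∀ q ∈ I,
      (¬ (q.1 = q.2 ∧ Polynomial.cyclotomic n ℤ ∣ Helper18.Katz.toPoly n q.1)) →
      ∀ d : ℤ, (∀ n' ∈ n.properDivisors, ((p : ℤ) ^ n' - 1) ∣ d - 1) →
      (∀ k : ℕ, ¬ d ≡ (p : ℤ) ^ k [ZMOD ((p : ℤ) ^ n - 1)]) →
      d * ∑ i, q.1 i * (p : ℤ) ^ i.val ≡ ∑ i, q.2 i * (p : ℤ) ^ i.val
        [ZMOD ((p : ℤ) ^ n - 1)] → Helper18.Katz.Good p n d c := by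
    rw [Filter.eventually_all_finite hIfin]
    intro q _
    by_cases hnt : q.1 = q.2 ∧ Polynomial.cyclotomic n ℤ ∣ Helper18.Katz.toPoly n q.1
    · exact Filter.Eventually.of_forall (fun p h => absurd hnt h)
    · filter_upwards [per_pairN hn c hc hval q.1 q.2 hnt] with p hp _ d h1 h2 h3
      exact hp d h1 h2 h3
  filter_upwards [hall, eventually_ge_atTop 2] with p h1 h2 d hd hnd
  by_cases hex : ∃ q ∈ I,
      (¬ (q.1 = q.2 ∧ Polynomial.cyclotomic n ℤ ∣ Helper18.Katz.toPoly n q.1)) ∧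
      d * ∑ i, q.1 i * (p : ℤ) ^ i.val ≡ ∑ i, q.2 i * (p : ℤ) ^ i.val [ZMOD ((p : ℤ) ^ n - 1)]
  · obtain ⟨q, hq, hq1, hq2⟩ := hex
    exact h1 q hq hq1 d hd hnd hq2
  · apply hgen p h2 d _ _ c hc
    · have h3 := hd 1 (by rw [Nat.mem_properDivisors]; exact ⟨one_dvd _, by omega⟩)
      rwa [pow_one] at h3
    · intro u m hu hm hrel
      by_contra hcon
      exact hex ⟨(u, m), ⟨hu, hm⟩, hcon, hrel⟩

end Pool.Agent.Helper77.KZ
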