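import Pool.Agent.Helper82.KZ.V

/-!
Support file for MP_0aa406_nt (helper77): a minimal remainder has two elements.
-/

set_option autoImplicit false

namespace Pool.Agent.Helper77.KZ

open Finset
open scoped Pointwise

variable {n : ℕ}

/-- elements without successor -/
def out (d : ZMod n) (X : Finset (ZMod n)) : Finset (ZMod n) := X.filter (fun x => x + d ∉ X)

theorem mem_add_pair {d : ZMod n} {X : Finset (ZMod n)} {z : ZMod n} :
    z ∈ X + {0, d} ↔ z ∈ X ∨ z - d ∈ X := by
  rw [Finset.mem_add]
  constructor
  · rintro ⟨x, hx, y, hy, rfl⟩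
    rw [mem_insert, mem_singleton] at hy
    rcases hy with rfl | rfl
    · left; simpa using hx
    · right; simpa using hx
  · rintro (h | h)
    · exact ⟨z, h, 0, by simp, by simp⟩
    · exact ⟨z - d, h, d, by simp, by simp⟩

theorem card_add_pair (d : ZMod n) (X : Finset (ZMod n)) :
    (X + {0, d}).card = X.card + (out d X).card := by
  have h : X + {0, d} = X ∪ (out d X).image (fun x => x + d) := by
    ext z
    rw [mem_add_pair, mem_union, mem_image]
    constructor
    · rintro (h | h)
      · left; exact h
      · by_cases hz : z ∈ X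
        · left; exact hz
        · right
          exact ⟨z - d, by unfold out; rw [mem_filter]; exact ⟨h, by simpa using hz⟩, by simp⟩
    · rintro (h | ⟨x, hx, rfl⟩)
      · left; exact h
      · right
        unfold out at hx
        rw [mem_filter] at hx
        simpa using hx.1
  rw [h, card_union_of_disjoint, card_image_of_injective _ (add_left_injective d)]
  rw [disjoint_left]
  intro z hz hz'
  rw [mem_image] at hz'
  obtain ⟨x, hx, rfl⟩ := hz'
  unfold out at hx
  rw [mem_filter] at hx
  exact hx.2 hz

theorem ap_iff {d : ZMod n} {X : Finset (ZMod n)} : AP d X ↔ d ≠ 0 ∧ (out d X).card ≤ 1 := by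
  unfold AP
  rw [card_add_pair]
  constructor
  · rintro ⟨h1, h2⟩; exact ⟨h1, by omega⟩
  · rintro ⟨h1, h2⟩; exact ⟨h1, by omega⟩

theorem ap_addT {d : ZMod n} {A B : Finset (ZMod n)} (hA : AP d A) (hB : AP d B) :
    AP d (A + B) := by
  rw [ap_iff] at hA hB ⊢
  refine ⟨hA.1, ?_⟩
  -- every element without successor is the sum of such elements
  rw [Finset.card_le_one] at hA hB ⊢
  have key : ∀ z ∈ out d (A + B), ∀ a ∈ A, ∀ b ∈ B, a + b = z → a ∈ out d A ∧ b ∈ out d B := by
    intro z hz a ha b hb hab
    unfold out at hz ⊢
    rw [mem_filter] at hz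
    rw [mem_filter, mem_filter]
    refine ⟨⟨ha, fun h => hz.2 ?_⟩, ⟨hb, fun h => hz.2 ?_⟩⟩
    · rw [← hab, Finset.mem_add]
      exact ⟨a + d, h, b, hb, by ring⟩
    · rw [← hab, Finset.mem_add]
      exact ⟨a, ha, b + d, h, by ring⟩
  intro z hz w hw
  have hz1 : z ∈ A + B := (mem_filter.mp hz).1
  have hw1 : w ∈ A + B := (mem_filter.mp hw).1
  obtain ⟨a, ha, b, hb, hab⟩ := Finset.mem_add.mp hz1
  obtain ⟨a', ha', b', hb', hab'⟩ := Finset.mem_add.mp hw1
  obtain ⟨k1, k2⟩ := key z hz a ha b hb hab
  obtain ⟨k3, k4⟩ := key w hw a' ha' b' hb' hab'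
  rw [← hab, ← hab', hA.2 a k1 a' k3, hB.2 b k2 b' k4]

theorem ap_negT {d : ZMod n} {X : Finset (ZMod n)} (h : AP d (-X)) : AP (-d) X := by
  unfold AP at h ⊢
  refine ⟨neg_ne_zero.mpr h.1, ?_⟩
  have h1 : -(X + {0, -d}) = -X + {0, d} := by
    rw [neg_add]
    congr 1
    ext z
    simp only [Finset.mem_neg, mem_insert, mem_singleton]
    constructor
    · rintro ⟨y, hy | hy, rfl⟩
      · left; rw [hy]; simp
      · right; rw [hy]; simp
    · rintro (rfl | rfl)
      · exact ⟨0, by simp, by simp⟩
      · exact ⟨-z, by simp, by simp⟩
  rw [← Finset.card_neg (X + {0, -d}), h1, ← Finset.card_neg X]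
  exact h.2

/-- the basic data of a minimal remainder -/
structure Data [NeZero n] (g : ZMod n → ℤ) (X : Finset (ZMod n)) : Prop where
  hX : X.Nonempty
  h012 : ∀ k, Meets g X k → EE g X k = 0 ∨ EE g X k = 1 ∨ EE g X k = 2
  hcov : ∀ k, Meets g X k → EE g X k ≠ 1 → ∀ x ∈ X, g (k - x) ≠ 0

/-- rows covering `X` -/
def CC [NeZero n] (g : ZMod n → ℤ) (X : Finset (ZMod n)) : Finset (ZMod n) :=
  univ.filter (fun k => ∀ x ∈ X, g (k - x) ≠ 0)

theorem meets_iff [NeZero n] {g : ZMod n → ℤ} {X : Finset (ZMod n)} {k : ZMod n} :
    Meets g X k ↔ k ∈ X + TT g := by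
  unfold Meets TT
  rw [Finset.mem_add]
  constructor
  · rintro ⟨l, hl, h⟩
    exact ⟨l, hl, k - l, by simpa using h, by ring⟩
  · rintro ⟨l, hl, t, ht, rfl⟩
    rw [mem_filter] at ht
    exact ⟨l, hl, by simpa using ht.2⟩

theorem EE_parity' {g : ZMod n → ℤ} (hg : IsSign g) (U : Finset (ZMod n)) (s : ZMod n) :
    EE g U s ≡ (cov g U s).card [ZMOD 2] := by
  unfold EE cov
  rw [Finset.card_filter]
  push_cast
  apply Int.ModEq.sum
  intro i _
  rcases hg (s - i) with h | h | h <;> rw [h] <;> decide

theorem sum_EE [NeZero n] (g : ZMod n → ℤ) (X : Finset (ZMod n)) :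
    ∑ k, EE g X k = X.card * ∑ i, g i := by
  unfold EE
  rw [Finset.sum_comm]
  have h : ∀ l ∈ X, (∑ k, g (k - l)) = ∑ i, g i := by
    intro l _
    exact Fintype.sum_equiv (Equiv.subRight l) _ _ (fun s => by simp)
  rw [Finset.sum_congr rfl h, Finset.sum_const, nsmul_eq_mul]

/-- supports of sign patterns -/
theorem card_TT [NeZero n] {g : ZMod n → ℤ} (hg : IsSign g) :
    ((TT g).card : ℤ) = ∑ i, g i + 2 * ((univ.filter (fun i => g i = -1)).card : ℤ) := by
  unfold TT
  rw [Finset.card_filter, Finset.card_filter]
  push_cast
  rw [Finset.mul_sum, ← Finset.sum_add_distrib]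
  apply Finset.sum_congr rfl
  intro i _
  rcases hg i with h | h | h <;> rw [h] <;> norm_num


theorem cov_step [NeZero n] {g : ZMod n → ℤ} {X : Finset (ZMod n)} (d k : ZMod n)
    (h : (out d X).card ≤ 1 ∨ (out d (TT g)).card ≤ 1) :
    (cov g X k).card ≤ (cov g X (k + d)).card + 1 := by
  rcases h with h | h
  · have h1 : (cov g X k).card = ((cov g X k).filter (fun x => x + d ∈ X)).card +
        ((cov g X k).filter (fun x => ¬ (x + d ∈ X))).card :=
      (Finset.card_filter_add_card_filter_not _).symm
    have h2 : ((cov g X k).filter (fun x => x + d ∈ X)).card ≤ (cov g X (k + d)).card := by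
      apply Finset.card_le_card_of_injOn (fun x => x + d)
      · intro x hx
        simp only [cov, coe_filter, mem_filter, Set.mem_setOf_eq] at hx ⊢
        refine ⟨hx.2, ?_⟩
        have : k + d - (x + d) = k - x := by ring
        rw [this]; exact hx.1.2
      · intro x _ y _ hxy
        exact add_right_cancel hxy
    have h3 : ((cov g X k).filter (fun x => ¬ (x + d ∈ X))).card ≤ (out d X).card := by
      apply Finset.card_le_card
      intro x hx
      simp only [cov, out, mem_filter] at hx ⊢
      exact ⟨hx.1.1, hx.2⟩
    omega
  · have h1 : (cov g X k).card = ((cov g X k).filter (fun x => g (k + d - x) ≠ 0)).card +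
        ((cov g X k).filter (fun x => ¬ (g (k + d - x) ≠ 0))).card :=
      (Finset.card_filter_add_card_filter_not _).symm
    have h2 : ((cov g X k).filter (fun x => g (k + d - x) ≠ 0)).card ≤
        (cov g X (k + d)).card := by
      apply Finset.card_le_card
      intro x hx
      simp only [cov, mem_filter] at hx ⊢
      exact ⟨hx.1.1, hx.2⟩
    have h3 : ((cov g X k).filter (fun x => ¬ (g (k + d - x) ≠ 0))).card ≤
        (out d (TT g)).card := by
      apply Finset.card_le_card_of_injOn (fun x => k - x)
      · intro x hx
        simp only [cov, out, TT, coe_filter, mem_filter, Set.mem_setOf_eq, mem_univ,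
          true_and] at hx ⊢
        refine ⟨hx.1.2, ?_⟩
        have : k - x + d = k + d - x := by ring
        rw [this]; exact hx.2
      · intro x _ y _ hxy
        simpa using hxy
    omega

theorem cov_values [NeZero n] {g : ZMod n → ℤ} (hg : IsSign g) {X : Finset (ZMod n)}
    (hD : Data g X) (k : ZMod n) :
    (cov g X k).card = 0 ∨ Odd (cov g X k).card ∨ (cov g X k).card = X.card := by
  by_cases hk : Meets g X k
  · by_cases hE : EE g X k = 1
    · right; left
      have h1 := EE_parity' hg X k
      rw [hE] at h1
      rw [Nat.odd_iff]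
      have h2 := h1.symm
      unfold Int.ModEq at h2
      omega
    · right; right
      have h1 := hD.hcov k hk hE
      congr 1
      unfold cov
      rw [Finset.filter_eq_self]
      exact h1
  · left
    rw [Finset.card_eq_zero]
    unfold cov
    rw [Finset.filter_eq_empty_iff]
    intro x hx hne
    exact hk ⟨x, hx, hne⟩

/-- discrete intermediate values against parity -/
theorem ivt [NeZero n] {g : ZMod n → ℤ} (hg : IsSign g) {X : Finset (ZMod n)}
    (hD : Data g X) (hsmall : (X + TT g).card < n.minFac) (hr : 4 ≤ X.card)
    {k₀ : ZMod n} (hk₀ : k₀ ∈ CC g X) {d : ZMod n} (hd : d ≠ 0)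
    (h : (out d X).card ≤ 1 ∨ (out d (TT g)).card ≤ 1) : False := by
  have hex : ∃ j : ℕ, (cov g X (k₀ + (j : ZMod n) * d)).card ≤ 2 := by
    by_contra hcon
    push Not at hcon
    have h1 : ((Finset.range n.minFac).image (fun j : ℕ => k₀ + (j : ZMod n) * d)).card =
        n.minFac := by
      rw [Finset.card_image_of_injOn, Finset.card_range]
      intro i hi j hj hij
      simp only [coe_range, Set.mem_Iio] at hi hj
      exact orbit_inj hd hi hj (by simpa using hij)
    have h2 : ((Finset.range n.minFac).image (fun j : ℕ => k₀ + (j : ZMod n) * d)) ⊆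
        X + TT g := by
      intro z hz
      rw [mem_image] at hz
      obtain ⟨j, _, rfl⟩ := hz
      have h3 := hcon j
      have h4 : (cov g X (k₀ + (j : ZMod n) * d)).Nonempty := Finset.card_pos.mp (by omega)
      obtain ⟨x, hx⟩ := h4
      unfold cov at hx
      rw [mem_filter] at hx
      exact meets_iff.mp ⟨x, hx.1, hx.2⟩
    have h3 := Finset.card_le_card h2
    omega
  classical
  set j := Nat.find hex with hj
  have hj1 : (cov g X (k₀ + (j : ZMod n) * d)).card ≤ 2 := Nat.find_spec hex
  have h0 : (cov g X k₀).card = X.card := by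
    congr 1
    unfold cov
    rw [Finset.filter_eq_self]
    unfold CC at hk₀
    rw [mem_filter] at hk₀
    exact hk₀.2
  have hj0 : j ≠ 0 := by
    intro h0'
    rw [h0'] at hj1
    simp only [Nat.cast_zero, zero_mul, add_zero] at hj1
    omega
  obtain ⟨i, hi⟩ := Nat.exists_eq_succ_of_ne_zero hj0
  have hi2 : ¬ (cov g X (k₀ + (i : ZMod n) * d)).card ≤ 2 := Nat.find_min hex (by omega)
  have hstep := cov_step (g := g) (X := X) d (k₀ + (i : ZMod n) * d) h
  have e1 : k₀ + (i : ZMod n) * d + d = k₀ + (j : ZMod n) * d := by
    rw [hi]; push_cast; ring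
  rw [e1] at hstep
  have h2 : (cov g X (k₀ + (j : ZMod n) * d)).card = 2 := by omega
  rcases cov_values hg hD (k₀ + (j : ZMod n) * d) with h3 | h3 | h3
  · omega
  · rw [h2] at h3
    exact absurd h3 (by decide)
  · omega


theorem CC_subset [NeZero n] {g : ZMod n → ℤ} {X : Finset (ZMod n)} (hX : X.Nonempty) :
    CC g X ⊆ X + TT g := by
  intro k hk
  unfold CC at hk
  rw [mem_filter] at hk
  obtain ⟨x, hx⟩ := hX
  exact meets_iff.mp ⟨x, hx, hk.2 x hx⟩

theorem CC_sub_subset [NeZero n] {g : ZMod n → ℤ} {X : Finset (ZMod n)} :
    CC g X - X ⊆ TT g := by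
  intro z hz
  rw [Finset.mem_sub] at hz
  obtain ⟨k, hk, x, hx, rfl⟩ := hz
  unfold CC at hk
  rw [mem_filter] at hk
  unfold TT
  rw [mem_filter]
  exact ⟨mem_univ _, hk.2 x hx⟩

/-- the count of rows -/
theorem count [NeZero n] {g : ZMod n → ℤ} (hg : IsSign g) (he : ∑ i, g i = 2)
    {X : Finset (ZMod n)} (hD : Data g X) (hre : Even X.card) :
    (X + TT g).card + 2 * ((CC g X).filter (fun k => EE g X k = 2)).card =
      2 * X.card + (CC g X).card := by
  have h1 := sum_EE g X
  rw [he] at h1
  have h2 : ∀ k, EE g X k = (if k ∈ X + TT g then 1 else 0) - (if k ∈ CC g X then 1 else 0) +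
      2 * (if k ∈ (CC g X).filter (fun k => EE g X k = 2) then (1 : ℤ) else 0) := by
    intro k
    by_cases hk : k ∈ CC g X
    · have hk1 := CC_subset hD.hX hk
      have hm := meets_iff.mpr hk1
      have hp := EE_parity' hg X k
      have hc : (cov g X k).card = X.card := by
        congr 1
        unfold cov
        rw [Finset.filter_eq_self]
        unfold CC at hk
        rw [mem_filter] at hk
        exact hk.2
      rw [hc] at hp
      obtain ⟨t, ht⟩ := hre
      rcases hD.h012 k hm with h | h | h
      · rw [if_pos hk1, if_pos hk, if_neg (by rw [mem_filter, h]; simp)]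
        rw [h]; norm_num
      · exfalso
        rw [h, ht] at hp
        unfold Int.ModEq at hp
        push_cast at hp
        omega
      · rw [if_pos hk1, if_pos hk, if_pos (by rw [mem_filter, h]; exact ⟨hk, rfl⟩)]
        rw [h]; norm_num
    · by_cases hk1 : k ∈ X + TT g
      · have hm := meets_iff.mpr hk1
        have h3 : EE g X k = 1 := by
          by_contra hne
          apply hk
          unfold CC
          rw [mem_filter]
          exact ⟨mem_univ _, hD.hcov k hm hne⟩
        rw [if_pos hk1, if_neg hk, if_neg (by rw [mem_filter]; exact fun h => hk h.1), h3]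
        norm_num
      · rw [if_neg hk1, if_neg hk, if_neg (by rw [mem_filter]; exact fun h => hk h.1)]
        unfold EE
        rw [Finset.sum_eq_zero]
        · norm_num
        · intro l hl
          by_contra hne
          exact hk1 (meets_iff.mp ⟨l, hl, hne⟩)
  rw [Finset.sum_congr rfl (fun k _ => h2 k), Finset.sum_add_distrib, Finset.sum_sub_distrib,
    ← Finset.mul_sum, Finset.sum_ite_mem, Finset.sum_ite_mem, Finset.sum_ite_mem] at h1
  simp only [Finset.univ_inter, Finset.sum_const, nsmul_eq_mul, mul_one] at h1
  have h3 : (((X + TT g).card + 2 * ((CC g X).filter (fun k => EE g X k = 2)).card : ℕ) : ℤ) =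
      ((2 * X.card + (CC g X).card : ℕ) : ℤ) := by
    push_cast
    linarith
  exact_mod_cast h3

theorem odd_card_of_symm (hodd : Odd n) {E : Finset (ZMod n)} (h0 : (0 : ZMod n) ∈ E)
    (hs : ∀ x ∈ E, -x ∈ E) : Odd E.card := by
  have h1 : Even (E.erase 0).card := by
    have h2 : ∑ _x ∈ E.erase 0, (1 : ZMod 2) = 0 := by
      apply Finset.sum_involution (fun x _ => -x)
      · intro a _; decide
      · intro a ha _ h
        have ha0 : a ≠ 0 := (mem_erase.mp ha).1
        exact ZMod.ne_neg_self hodd ha0 h.symm
      · intro a _; simp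
      · intro a ha
        rw [mem_erase] at ha ⊢
        exact ⟨neg_ne_zero.mpr ha.1, hs a ha.2⟩
    rw [Finset.sum_const, nsmul_eq_mul, mul_one] at h2
    rw [even_iff_two_dvd]
    exact (ZMod.natCast_eq_zero_iff _ _).mp h2
  rw [Finset.card_erase_of_mem h0] at h1
  have hpos : 0 < E.card := Finset.card_pos.mpr ⟨0, h0⟩
  obtain ⟨t, ht⟩ := h1
  exact ⟨t, by omega⟩

theorem sub_card_pair (c d : ZMod n) (X : Finset (ZMod n)) :
    (({c, c + d} : Finset (ZMod n)) - X).card = X.card + (out (-d) X).card := by
  rw [← card_add_pair]
  have h : ({c, c + d} : Finset (ZMod n)) - X = (X + {0, -d}).image (fun z => c - z) := by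
    ext z
    rw [mem_image, Finset.mem_sub]
    constructor
    · rintro ⟨a, ha, x, hx, rfl⟩
      rw [mem_insert, mem_singleton] at ha
      rcases ha with rfl | rfl
      · exact ⟨x, Finset.mem_add.mpr ⟨x, hx, 0, by simp, by simp⟩, rfl⟩
      · exact ⟨x - d, Finset.mem_add.mpr ⟨x, hx, -d, by simp, by ring⟩, by ring⟩
    · rintro ⟨w, hw, rfl⟩
      rw [Finset.mem_add] at hw
      obtain ⟨x, hx, y, hy, rfl⟩ := hw
      rw [mem_insert, mem_singleton] at hy
      rcases hy with rfl | rfl
      · exact ⟨c, by simp, x, hx, by ring⟩
      · exact ⟨c + d, by simp, x, hx, by ring⟩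
  rw [h, Finset.card_image_of_injective]
  intro a b hab
  simpa using hab


theorem card_two [NeZero n] (hodd : Odd n) (hn : n ≠ 1) {g : ZMod n → ℤ} (hg : IsSign g)
    (he : ∑ i, g i = 2) (hneg : ∃ i, g i = -1) {Y X : Finset (ZMod n)} (hXY : X ⊂ Y)
    (hX : X.Nonempty) (hYodd : Odd Y.card) (hYT : (Y + TT g).card = 2 * Y.card)
    (hsmall : (Y + TT g).card < n.minFac)
    (h012 : ∀ k, Meets g X k → EE g X k = 0 ∨ EE g X k = 1 ∨ EE g X k = 2)
    (hcov : ∀ k, Meets g X k → EE g X k ≠ 1 → ∀ x ∈ X, g (k - x) ≠ 0)
    (hex : ∃ k, Meets g X k ∧ EE g X k ≠ 1) : X.card = 2 := by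
  have hD : Data g X := ⟨hX, h012, hcov⟩
  have hmodd : Odd n.minFac := by
    have h1 := Nat.minFac_dvd n
    rcases Nat.even_or_odd n.minFac with h | h
    · exfalso
      exact (Nat.not_even_iff_odd.mpr hodd) (even_iff_two_dvd.mpr (h.two_dvd.trans h1))
    · exact h
  -- the support
  have hτ := card_TT hg
  rw [he] at hτ
  have hN : 0 < (univ.filter (fun i => g i = -1)).card := by
    obtain ⟨i, hi⟩ := hneg
    exact Finset.card_pos.mpr ⟨i, by simpa using hi⟩
  obtain ⟨b, hb⟩ : ∃ b, (univ.filter (fun i => g i = -1)).card = b := ⟨_, rfl⟩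
  rw [hb] at hτ hN
  have hτ' : (TT g).card = 2 + 2 * b := by exact_mod_cast hτ
  -- a covering row
  obtain ⟨k₀, hk₀m, hk₀⟩ := hex
  have hk₀C : k₀ ∈ CC g X := by
    unfold CC
    rw [mem_filter]
    exact ⟨mem_univ _, hcov k₀ hk₀m hk₀⟩
  have hcovX : ∀ k ∈ CC g X, cov g X k = X := by
    intro k hk
    unfold cov
    rw [Finset.filter_eq_self]
    unfold CC at hk
    rw [mem_filter] at hk
    exact hk.2
  have hre : Even X.card := by
    have h1 := EE_parity' hg X k₀
    rw [hcovX k₀ hk₀C] at h1
    have h2 := h012 k₀ hk₀m
    rw [Nat.even_iff]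
    unfold Int.ModEq at h1
    rcases h2 with h | h | h
    · rw [h] at h1; omega
    · exact absurd h hk₀
    · rw [h] at h1; omega
  have hcount := count hg he hD hre
  have hXpos : 0 < X.card := Finset.card_pos.mpr hX
  have hTne : (TT g).Nonempty := Finset.card_pos.mp (by omega)
  have hCne : (CC g X).Nonempty := ⟨k₀, hk₀C⟩
  have hCpos : 0 < (CC g X).card := Finset.card_pos.mpr hCne
  have hSY : X + TT g ⊆ Y + TT g := Finset.add_subset_add_right hXY.1
  have hSYc := Finset.card_le_card hSY
  have hYne : Y.Nonempty := hX.mono hXY.1
  have hcdY := cd hn hYne hTne hsmall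
  have hcdX := cd hn hX hTne (lt_of_le_of_lt hSYc hsmall)
  have hXYc := Finset.card_lt_card hXY
  have hm2 : ((CC g X).filter (fun k => EE g X k = 2)).card ≤ (CC g X).card :=
    Finset.card_filter_le _ _
  -- `X` inside a row
  have hrτ : X.card ≤ (TT g).card := by
    have h1 : (X.image (fun x => k₀ - x)) ⊆ TT g := by
      intro z hz
      rw [mem_image] at hz
      obtain ⟨x, hx, rfl⟩ := hz
      exact CC_sub_subset (X := X) (Finset.mem_sub.mpr ⟨k₀, hk₀C, x, hx, rfl⟩)
    have h2 := Finset.card_le_card h1
    rwa [Finset.card_image_of_injective _ (fun a b hab => by simpa using hab)] at h2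
  by_contra hne2
  have hr4 : 4 ≤ X.card := by
    obtain ⟨t, ht⟩ := hre
    omega
  have hfin : ∀ d : ZMod n, d ≠ 0 → ((out d X).card ≤ 1 ∨ (out d (TT g)).card ≤ 1) → False :=
    fun d hd h => ivt hg hD (lt_of_le_of_lt hSYc hsmall) hr4 hk₀C hd h
  have hfinX : ∀ d : ZMod n, AP d X → False := fun d h =>
    hfin d h.1 (Or.inl (ap_iff.mp h).2)
  have hfinT : ∀ d : ZMod n, AP d (TT g) → False := fun d h =>
    hfin d h.1 (Or.inr (ap_iff.mp h).2)
  set S := (X + TT g).card with hS
  set r := X.card with hr
  set τ := (TT g).card with hτdef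
  set m := (CC g X).card with hm
  set m₂ := ((CC g X).filter (fun k => EE g X k = 2)).card with hm₂
  obtain ⟨q, hq⟩ := hmodd
  obtain ⟨y, hy⟩ := hYodd
  obtain ⟨ρ, hρ⟩ := hre
  rw [hYT] at hSYc hsmall hcdY
  by_cases hm1 : m = 1
  · -- a single covering row
    have hvos : S + 1 ≤ r + τ := by
      rcases Nat.lt_or_ge m₂ 1 with h0 | h1
      · have h0' : m₂ = 0 := by omega
        have hlt : r ≠ τ := by
          intro heq
          have h1 : (X.image (fun x => k₀ - x)) = TT g := by
            apply Finset.eq_of_subset_of_card_le
            · intro z hz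
              rw [mem_image] at hz
              obtain ⟨x, hx, rfl⟩ := hz
              exact CC_sub_subset (X := X) (Finset.mem_sub.mpr ⟨k₀, hk₀C, x, hx, rfl⟩)
            · rw [Finset.card_image_of_injective _ (fun a b hab => by simpa using hab)]
              exact heq.ge
          have h2 : EE g X k₀ = 2 := by
            rw [← he]
            have h3 : ∑ i, g i = ∑ i ∈ TT g, g i := by
              unfold TT
              rw [Finset.sum_filter_ne_zero]
            rw [h3, ← h1, Finset.sum_image (fun a _ b _ hab => by simpa using hab)]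
            rfl
          have h4 : k₀ ∈ (CC g X).filter (fun k => EE g X k = 2) := by
            rw [mem_filter]; exact ⟨hk₀C, h2⟩
          have h5 : 0 < m₂ := Finset.card_pos.mpr ⟨k₀, h4⟩
          omega
        omega
      · omega
    have hS2 : S + 2 ≤ n.minFac := by omega
    obtain ⟨d, hd, _⟩ := vosper hn (A := X) (B := TT g) (by omega) (by omega) hvos hS2
    exact hfinX d hd
  · have hm2' : 2 ≤ m := by omega
    have hT'sub : CC g X - X ⊆ TT g := CC_sub_subset
    have hT'le : (CC g X - X).card ≤ τ := Finset.card_le_card hT'sub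
    have hnegX : (-X).card = r := Finset.card_neg X
    have hsubeq : CC g X - X = CC g X + -X := sub_eq_add_neg _ _
    by_cases hcrit : (CC g X - X).card + 1 ≤ m + r
    · obtain ⟨d, _, hd⟩ := vosper hn (A := CC g X) (B := -X) hm2' (by omega)
        (by rw [← hsubeq, hnegX]; exact hcrit) (by rw [← hsubeq]; omega)
      exact hfinX _ (ap_negT hd)
    · by_cases hb2 : S + 1 ≤ r + τ
      · have hS2 : S + 2 ≤ n.minFac := by omega
        obtain ⟨d, hd, _⟩ := vosper hn (A := X) (B := TT g) (by omega) (by omega) hb2 hS2
        exact hfinX d hd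
      · have hm20 : m₂ = 0 := by omega
        have hτm : τ = r + m := by omega
        have hSm : S = 2 * r + m := by omega
        have hT' : CC g X - X = TT g :=
          Finset.eq_of_subset_of_card_le hT'sub (by omega)
        by_cases hm22 : m = 2
        · -- two covering rows
          obtain ⟨c, c', hcc, hCeq⟩ := Finset.card_eq_two.mp hm22
          set d := c' - c with hd
          have hd0 : d ≠ 0 := sub_ne_zero.mpr hcc.symm
          have hc' : c' = c + d := by rw [hd]; ring
          rw [hc'] at hCeq
          have hout : (out (-d) X).card = 2 := by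
            have h1 := sub_card_pair c d X
            rw [← hCeq, hT'] at h1
            omega
          have hTmem : ∀ z, z ∈ TT g ↔ (c - z ∈ X ∨ c + d - z ∈ X) := by
            intro z
            rw [← hT', hCeq, Finset.mem_sub]
            constructor
            · rintro ⟨a, ha, x, hx, rfl⟩
              rw [mem_insert, mem_singleton] at ha
              rcases ha with rfl | rfl
              · left; simpa using hx
              · right; simpa using hx
            · rintro (h | h)
              · exact ⟨c, by simp, c - z, h, by ring⟩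
              · exact ⟨c + d, by simp, c + d - z, h, by ring⟩
          have hcovmem : ∀ x, x ∈ cov g X (c + 2 * d) ↔ x ∈ X ∧ (x - d ∈ X ∨ x - 2 * d ∈ X) := by
            intro x
            unfold cov
            rw [mem_filter]
            have h1 : g (c + 2 * d - x) ≠ 0 ↔ c + 2 * d - x ∈ TT g := by
              unfold TT; simp
            rw [h1, hTmem]
            have e1 : c - (c + 2 * d - x) = x - 2 * d := by ring
            have e2 : c + d - (c + 2 * d - x) = x - d := by ring
            rw [e1, e2, or_comm]
          have hb3 : X.card ≤ (cov g X (c + 2 * d)).card + 2 := by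
            rw [← hout, ← Finset.card_filter_add_card_filter_not (s := X)
              (fun x => x - d ∈ X ∨ x - 2 * d ∈ X)]
            have h1 : (X.filter (fun x => x - d ∈ X ∨ x - 2 * d ∈ X)) = cov g X (c + 2 * d) := by
              ext x
              rw [mem_filter, hcovmem]
            rw [h1]
            apply Nat.add_le_add_left
            apply Finset.card_le_card
            intro x hx
            rw [mem_filter] at hx
            unfold out
            rw [mem_filter]
            push Not at hx
            refine ⟨hx.1, ?_⟩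
            have : x + -d = x - d := by ring
            rw [this]; exact hx.2.1
          have hoT : (out d (TT g)).card + (cov g X (c + 2 * d)).card = X.card := by
            have h1 : (out d (TT g)).card =
                (X.filter (fun x => ¬ (x - d ∈ X ∨ x - 2 * d ∈ X))).card := by
              apply Finset.card_bij (fun t _ => c + d - t)
              · intro t ht
                unfold out at ht
                rw [mem_filter, hTmem, hTmem] at ht
                obtain ⟨h1, h2⟩ := ht
                push Not at h2
                have e1 : c + d - (t + d) = c - t := by ring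
                rw [e1] at h2
                rw [mem_filter]
                have h3 : c + d - t ∈ X := by
                  rcases h1 with h | h
                  · exact absurd h h2.2
                  · exact h
                refine ⟨h3, ?_⟩
                push Not
                have e2 : c + d - t - d = c - t := by ring
                have e3 : c + d - t - 2 * d = c - (t + d) := by ring
                rw [e2, e3]
                exact ⟨h2.2, h2.1⟩
              · intro a _ b _ hab
                simpa using hab
              · intro x hx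
                rw [mem_filter] at hx
                push Not at hx
                refine ⟨c + d - x, ?_, by ring⟩
                unfold out
                rw [mem_filter, hTmem, hTmem]
                have e1 : c + d - (c + d - x) = x := by ring
                have e2 : c - (c + d - x + d) = x - 2 * d := by ring
                have e3 : c + d - (c + d - x + d) = x - d := by ring
                rw [e1, e2, e3]
                exact ⟨Or.inr hx.1, by push Not; exact ⟨hx.2.2, hx.2.1⟩⟩
            have h2 : (X.filter (fun x => x - d ∈ X ∨ x - 2 * d ∈ X)) = cov g X (c + 2 * d) := by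
              ext x
              rw [mem_filter, hcovmem]
            rw [h1, ← h2, add_comm]
            exact Finset.card_filter_add_card_filter_not _
          have hval := cov_values hg hD (c + 2 * d)
          apply hfin d hd0
          right
          rcases hval with h | ⟨t, ht⟩ | h
          · omega
          · omega
          · omega
        · -- at least three covering rows
          have hm3 : 3 ≤ m := by omega
          set E := X - X with hE
          have hCE : CC g X + E = X + TT g := by
            rw [hE, ← hT', ← add_sub_assoc, add_comm (CC g X) X, add_sub_assoc]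
          have hEne : E.Nonempty := by
            obtain ⟨x, hx⟩ := hX
            exact ⟨x - x, Finset.sub_mem_sub hx hx⟩
          have hCEs : (CC g X + E).card = S := by rw [hCE]
          have hcdE := cd hn hCne hEne (by rw [hCEs]; omega)
          rw [hCEs] at hcdE
          have hEsub : E = X + -X := by rw [hE, sub_eq_add_neg]
          have hcdXX := cd hn hX (B := -X) (by
            obtain ⟨x, hx⟩ := hX
            exact ⟨-x, Finset.neg_mem_neg hx⟩) (by rw [← hEsub]; omega)
          rw [← hEsub, hnegX] at hcdXX
          have hEodd : Odd E.card := by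
            apply odd_card_of_symm hodd
            · obtain ⟨x, hx⟩ := hX
              have := Finset.sub_mem_sub hx hx
              rwa [sub_self] at this
            · intro z hz
              rw [hE, Finset.mem_sub] at hz ⊢
              obtain ⟨a, ha, b, hb, rfl⟩ := hz
              exact ⟨b, hb, a, ha, by ring⟩
          obtain ⟨ε, hε⟩ := hEodd
          by_cases hEc : E.card + 1 ≤ 2 * r
          · obtain ⟨d, hd, _⟩ := vosper hn (A := X) (B := -X) (by omega) (by omega)
              (by rw [← hEsub, hnegX]; omega) (by rw [← hEsub]; omega)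
            exact hfinX d hd
          · have hE2 : E.card = 2 * r + 1 := by omega
            obtain ⟨d, hd, _⟩ := vosper hn (A := CC g X) (B := E) hm2' (by omega)
              (by rw [hCEs]; omega) (by rw [hCEs]; omega)
            have hd2 := (ap_iff.mp hd).2
            by_cases hX1 : (out (-d) X).card ≤ 1
            · exact hfin (-d) (neg_ne_zero.mpr hd.1) (Or.inl hX1)
            · set C₁ := (CC g X).filter (fun c => c + d ∈ CC g X) with hC₁
              have hC₁c : C₁.card + (out d (CC g X)).card = m :=
                Finset.card_filter_add_card_filter_not _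
              set X' : Finset (ZMod n) := {0, 0 + d} - X with hX'
              have hX'c : X'.card = r + (out (-d) X).card := sub_card_pair 0 d X
              have hsub : C₁ + X' ⊆ TT g := by
                intro z hz
                rw [Finset.mem_add] at hz
                obtain ⟨c, hc, w, hw, rfl⟩ := hz
                rw [hX', Finset.mem_sub] at hw
                obtain ⟨a, ha, x, hx, rfl⟩ := hw
                rw [hC₁, mem_filter] at hc
                rw [mem_insert, mem_singleton] at ha
                rw [← hT', Finset.mem_sub]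
                rcases ha with rfl | rfl
                · exact ⟨c, hc.1, x, hx, by ring⟩
                · exact ⟨c + d, hc.2, x, hx, by ring⟩
              have hsubc := Finset.card_le_card hsub
              have hC₁ne : C₁.Nonempty := Finset.card_pos.mp (by omega)
              have hX'ne : X'.Nonempty := Finset.card_pos.mp (by omega)
              have hcd1 := cd hn hC₁ne hX'ne (by omega)
              have heq : C₁ + X' = TT g := Finset.eq_of_subset_of_card_le hsub (by omega)
              obtain ⟨d', hd1, hd2'⟩ := vosper hn (A := C₁) (B := X') (by omega) (by omega)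
                (by omega) (by omega)
              apply hfinT d'
              rw [← heq]
              exact ap_addT hd1 hd2'

end Pool.Agent.Helper77.KZ
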